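import Mathlib
import Pool.Agent.Q103.SD.Pad

/-!
# Products of powers that are congruent modulo a high power of a small prime
-/

set_option autoImplicit false

namespace Pool.Agent.Q103.SP

open Finset Pool.Agent.Q103.SD

/-- **`p`-adic bound** for products of powers of natural numbers prime to `p`. -/
theorem padic_any (n : ℕ) : ∃ C κ : ℕ, ∀ p : ℕ, p.Prime → ∀ S : ℕ, 1 ≤ S → p ≤ S →
    ∀ (Q b c : Fin n → ℕ) (M : ℕ), (∀ i, 0 < Q i) → (∀ i, ¬ p ∣ Q i) →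
      (∀ i, Q i ≤ 2 ^ S) → (∀ i, b i ≤ 2 ^ S) → (∀ i, c i ≤ 2 ^ S) →
      ∏ i, Q i ^ c i ≠ ∏ i, Q i ^ b i →
      (p : ℤ) ^ M ∣ (∏ i, (Q i : ℤ) ^ c i) ^ 2 - (∏ i, (Q i : ℤ) ^ b i) ^ 2 → M ≤ C * S ^ κ := by
  obtain ⟨C, κ, h⟩ := Pool.Agent.TH888.W2.weakBaker_all n
  refine ⟨C * 2 ^ κ, κ, ?_⟩
  intro p hp S hS hpS Q b c M hQ0 hQp hQS hbS hcS hne hdvd
  have : Fact p.Prime := ⟨hp⟩
  obtain ⟨u, hu, hrel⟩ := rel_units (Q := Q) (b := b) (c := c) hp hQp hdvd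
  have h1 := h p (2 * S) (by omega) (fun i => Q i ^ 2) (fun i => (c i : ℤ) - (b i : ℤ)) M u hu
    (fun i => pow_pos (hQ0 i) 2)
    (fun i => by
      calc Q i ^ 2 ≤ (2 ^ S) ^ 2 := Nat.pow_le_pow_left (hQS i) 2
        _ = 2 ^ (2 * S) := by rw [← pow_mul, mul_comm])
    (fun i => by
      have h1 : (b i : ℤ) ≤ 2 ^ S := by exact_mod_cast hbS i
      have h2 : (c i : ℤ) ≤ 2 ^ S := by exact_mod_cast hcS i
      have h3 : (2 : ℤ) ^ S ≤ 2 ^ (2 * S) := pow_le_pow_right₀ (by norm_num) (by omega)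
      rw [abs_le]
      constructor <;> omega) (prod_ne hQ0 hne) hrel
  calc M ≤ C * (2 * S) ^ κ := h1
    _ = C * 2 ^ κ * S ^ κ := by rw [mul_pow, mul_assoc]

/-- the part prime to `p` of a product of powers -/
theorem ordCompl_prod {n : ℕ} (p : ℕ) (Q b : Fin n → ℕ) :
    ordCompl[p] (∏ i, Q i ^ b i) = ∏ i, (ordCompl[p] (Q i)) ^ b i := by
  have hpow : ∀ (m k : ℕ), ordCompl[p] (m ^ k) = (ordCompl[p] m) ^ k := by
    intro m k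
    induction k with
    | zero => simp
    | succ k ih => rw [pow_succ, Nat.ordCompl_mul, ih, pow_succ]
  have h : ∀ s : Finset (Fin n), ordCompl[p] (∏ i ∈ s, Q i ^ b i) =
      ∏ i ∈ s, (ordCompl[p] (Q i)) ^ b i := by
    classical
    intro s
    induction s using Finset.induction_on with
    | empty => simp
    | insert i s hi ih => rw [Finset.prod_insert hi, Finset.prod_insert hi, Nat.ordCompl_mul, ih, hpow]
  exact h Finset.univ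

/-- **Products of powers that are congruent, up to the sign, modulo a power of `p`.** -/
theorem congruent (n : ℕ) : ∃ C κ : ℕ, ∀ p : ℕ, p.Prime → ∀ S : ℕ, 1 ≤ S → p ≤ S →
    ∀ (Q b c : Fin n → ℕ) (N e : ℕ), (∀ i, 0 < Q i) →
      (∀ i, Q i ≤ 2 ^ S) → (∀ i, b i ≤ 2 ^ S) → (∀ i, c i ≤ 2 ^ S) →
      ∏ i, Q i ^ c i ≠ ∏ i, Q i ^ b i → ¬ p ^ (e + 1) ∣ ∏ i, Q i ^ c i →
      (p : ℤ) ^ N ∣ (∏ i, (Q i : ℤ) ^ c i) ^ 2 - (∏ i, (Q i : ℤ) ^ b i) ^ 2 →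
      N ≤ 2 * e + C * S ^ κ := by
  obtain ⟨C, κ, h⟩ := padic_any n
  refine ⟨C, κ, ?_⟩
  intro p hp S hS hpS Q b c N e hQ0 hQS hbS hcS hne he hdvd
  by_cases hN : N ≤ 2 * e
  · omega
  push Not at hN
  obtain ⟨U, hU⟩ : ∃ U, U = ∏ i, Q i ^ c i := ⟨_, rfl⟩
  obtain ⟨V, hV⟩ : ∃ V, V = ∏ i, Q i ^ b i := ⟨_, rfl⟩
  have hUZ : (∏ i, (Q i : ℤ) ^ c i) = (U : ℤ) := by rw [hU]; push_cast; rfl
  have hVZ : (∏ i, (Q i : ℤ) ^ b i) = (V : ℤ) := by rw [hV]; push_cast; rfl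
  rw [hUZ, hVZ] at hdvd
  rw [← hU, ← hV] at hne
  rw [← hU] at he
  have hU0 : U ≠ 0 := by
    rw [hU]
    exact Finset.prod_ne_zero_iff.mpr fun i _ => pow_ne_zero _ (hQ0 i).ne'
  have hV0 : V ≠ 0 := by
    rw [hV]
    exact Finset.prod_ne_zero_iff.mpr fun i _ => pow_ne_zero _ (hQ0 i).ne'
  obtain ⟨a, ha⟩ : ∃ a, a = U.factorization p := ⟨_, rfl⟩
  obtain ⟨a', ha'⟩ : ∃ a', a' = V.factorization p := ⟨_, rfl⟩
  obtain ⟨U₁, hU₁⟩ : ∃ U₁, U₁ = ordCompl[p] U := ⟨_, rfl⟩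
  obtain ⟨V₁, hV₁⟩ : ∃ V₁, V₁ = ordCompl[p] V := ⟨_, rfl⟩
  have hUe : U = p ^ a * U₁ := by rw [ha, hU₁]; exact (Nat.ordProj_mul_ordCompl_eq_self U p).symm
  have hVe : V = p ^ a' * V₁ := by rw [ha', hV₁]; exact (Nat.ordProj_mul_ordCompl_eq_self V p).symm
  have hpU₁ : ¬ p ∣ U₁ := by rw [hU₁]; exact Nat.not_dvd_ordCompl hp hU0
  have hpV₁ : ¬ p ∣ V₁ := by rw [hV₁]; exact Nat.not_dvd_ordCompl hp hV0
  have hae : a ≤ e := by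
    by_contra hcon
    apply he
    rw [hUe]
    exact Dvd.dvd.mul_right (pow_dvd_pow p (by omega)) _
  have hpp : Prime (p : ℤ) := Nat.prime_iff_prime_int.mp hp
  have hp0 : (p : ℤ) ≠ 0 := hpp.ne_zero
  have hpU₁' : ¬ (p : ℤ) ∣ (U₁ : ℤ) ^ 2 := fun hd =>
    hpU₁ (Int.natCast_dvd_natCast.mp (hpp.dvd_of_dvd_pow hd))
  have hpV₁' : ¬ (p : ℤ) ∣ (V₁ : ℤ) ^ 2 := fun hd =>
    hpV₁ (Int.natCast_dvd_natCast.mp (hpp.dvd_of_dvd_pow hd))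
  have hUc : (U : ℤ) = (p : ℤ) ^ a * U₁ := by rw [hUe]; push_cast; rfl
  have hVc : (V : ℤ) = (p : ℤ) ^ a' * V₁ := by rw [hVe]; push_cast; rfl
  rw [hUc, hVc] at hdvd
  -- the exponents of `p` are equal
  have haa : a' = a := by
    rcases lt_trichotomy a' a with hlt | heq | hlt
    · exfalso
      have h1 : ((p : ℤ) ^ a * U₁) ^ 2 - ((p : ℤ) ^ a' * V₁) ^ 2 =
          (p : ℤ) ^ (2 * a') * ((p : ℤ) ^ (2 * (a - a')) * (U₁ : ℤ) ^ 2 - (V₁ : ℤ) ^ 2) := by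
        have h2 : (p : ℤ) ^ a = (p : ℤ) ^ a' * (p : ℤ) ^ (a - a') := by
          rw [← pow_add]; congr 1; omega
        rw [h2]
        ring
      have h3 : (p : ℤ) ^ N = (p : ℤ) ^ (2 * a') * (p : ℤ) ^ (N - 2 * a') := by
        rw [← pow_add]; congr 1; omega
      rw [h1, h3] at hdvd
      have h4 := (mul_dvd_mul_iff_left (pow_ne_zero _ hp0)).mp hdvd
      have h5 : (p : ℤ) ∣ (p : ℤ) ^ (N - 2 * a') := dvd_pow_self _ (by omega)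
      have h6 : (p : ℤ) ∣ (p : ℤ) ^ (2 * (a - a')) * (U₁ : ℤ) ^ 2 :=
        Dvd.dvd.mul_right (dvd_pow_self _ (by omega)) _
      have h7 := dvd_sub h6 (h5.trans h4)
      rw [sub_sub_cancel] at h7
      exact hpV₁' h7
    · exact heq
    · exfalso
      have h1 : ((p : ℤ) ^ a * U₁) ^ 2 - ((p : ℤ) ^ a' * V₁) ^ 2 =
          (p : ℤ) ^ (2 * a) * ((U₁ : ℤ) ^ 2 - (p : ℤ) ^ (2 * (a' - a)) * (V₁ : ℤ) ^ 2) := by
        have h2 : (p : ℤ) ^ a' = (p : ℤ) ^ a * (p : ℤ) ^ (a' - a) := by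
          rw [← pow_add]; congr 1; omega
        rw [h2]
        ring
      have h3 : (p : ℤ) ^ N = (p : ℤ) ^ (2 * a) * (p : ℤ) ^ (N - 2 * a) := by
        rw [← pow_add]; congr 1; omega
      rw [h1, h3] at hdvd
      have h4 := (mul_dvd_mul_iff_left (pow_ne_zero _ hp0)).mp hdvd
      have h5 : (p : ℤ) ∣ (p : ℤ) ^ (N - 2 * a) := dvd_pow_self _ (by omega)
      have h6 : (p : ℤ) ∣ (p : ℤ) ^ (2 * (a' - a)) * (V₁ : ℤ) ^ 2 :=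
        Dvd.dvd.mul_right (dvd_pow_self _ (by omega)) _
      have h7 := dvd_add (h5.trans h4) h6
      rw [sub_add_cancel] at h7
      exact hpU₁' h7
  have hcop : (p : ℤ) ^ (N - 2 * a) ∣ (U₁ : ℤ) ^ 2 - (V₁ : ℤ) ^ 2 := by
    have h1 : ((p : ℤ) ^ a * U₁) ^ 2 - ((p : ℤ) ^ a' * V₁) ^ 2 =
        (p : ℤ) ^ (2 * a) * ((U₁ : ℤ) ^ 2 - (V₁ : ℤ) ^ 2) := by
      rw [haa]
      ring
    have h3 : (p : ℤ) ^ N = (p : ℤ) ^ (2 * a) * (p : ℤ) ^ (N - 2 * a) := by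
      rw [← pow_add]; congr 1; omega
    rw [h1, h3] at hdvd
    exact (mul_dvd_mul_iff_left (pow_ne_zero _ hp0)).mp hdvd
  have hU₁' : U₁ = ∏ i, (ordCompl[p] (Q i)) ^ c i := by rw [hU₁, hU, ordCompl_prod]
  have hV₁' : V₁ = ∏ i, (ordCompl[p] (Q i)) ^ b i := by rw [hV₁, hV, ordCompl_prod]
  have hne₁ : U₁ ≠ V₁ := by
    intro h1
    apply hne
    rw [hUe, hVe, haa, h1]
  have hfin := h p hp S hS hpS (fun i => ordCompl[p] (Q i)) b c (N - 2 * a)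
    (fun i => Nat.ordCompl_pos p (hQ0 i).ne') (fun i => Nat.not_dvd_ordCompl hp (hQ0 i).ne')
    (fun i => (Nat.ordCompl_le _ _).trans (hQS i)) hbS hcS (by rw [← hU₁', ← hV₁']; exact hne₁) (by
      have e1 : (∏ i, ((ordCompl[p] (Q i) : ℕ) : ℤ) ^ c i) = (U₁ : ℤ) := by
        rw [hU₁']; push_cast; rfl
      have e2 : (∏ i, ((ordCompl[p] (Q i) : ℕ) : ℤ) ^ b i) = (V₁ : ℤ) := by
        rw [hV₁']; push_cast; rfl
      rw [e1, e2]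
      exact hcop)
  omega

end Pool.Agent.Q103.SP
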