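import Mathlib
import Pool.Agent.Q103.SP.PadAny

/-!
# Bounds for the exponents in `a U + b V = c W`
-/

set_option autoImplicit false

namespace Pool.Agent.Q103.SP

open Finset Filter

/-- **Products of powers that are congruent modulo a power of `p`**, any finite index set. -/
theorem congruent' (τ : Type*) [Fintype τ] : ∃ C κ : ℕ, ∀ p : ℕ, p.Prime → ∀ S : ℕ, 1 ≤ S →
    p ≤ S → ∀ (Q b c : τ → ℕ) (N e : ℕ), (∀ i, 0 < Q i) →
      (∀ i, Q i ≤ 2 ^ S) → (∀ i, b i ≤ 2 ^ S) → (∀ i, c i ≤ 2 ^ S) →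
      ∏ i, Q i ^ c i ≠ ∏ i, Q i ^ b i → ¬ p ^ (e + 1) ∣ ∏ i, Q i ^ c i →
      (p : ℤ) ^ N ∣ ((∏ i, Q i ^ c i : ℕ) : ℤ) ^ 2 - ((∏ i, Q i ^ b i : ℕ) : ℤ) ^ 2 →
      N ≤ 2 * e + C * S ^ κ := by
  obtain ⟨C, κ, h⟩ := congruent (Fintype.card τ)
  refine ⟨C, κ, ?_⟩
  intro p hp S hS hpS Q b c N e hQ0 hQS hbS hcS hne he hdvd
  obtain ⟨E, -⟩ : ∃ E : Fin (Fintype.card τ) ≃ τ, True := ⟨(Fintype.equivFin τ).symm, trivial⟩
  have h1 : ∀ x : τ → ℕ, ∏ i, Q (E i) ^ x (E i) = ∏ i, Q i ^ x i := fun x =>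
    Equiv.prod_comp E fun i => Q i ^ x i
  have h2 : ∀ x : τ → ℕ, ∏ i, ((Q (E i) : ℕ) : ℤ) ^ x (E i) = ((∏ i, Q i ^ x i : ℕ) : ℤ) := by
    intro x
    rw [← h1]
    push_cast
    rfl
  refine h p hp S hS hpS (fun i => Q (E i)) (fun i => b (E i)) (fun i => c (E i)) N e
    (fun i => hQ0 _) (fun i => hQS _) (fun i => hbS _) (fun i => hcS _) ?_ ?_ ?_
  · rw [h1, h1]; exact hne
  · rw [h1]; exact he
  · rw [h2, h2]; exact hdvd

/-- a common divisor `p ^ m` if the greatest common divisor is almost squarefree -/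
theorem pow_le_of_gcd {X Y p m : ℕ} (hp : p.Prime) (hX : 0 < X) (hpX : p ^ m ∣ X) (hpY : p ^ m ∣ Y)
    {Q : ℝ} (hQ : ((Nat.gcd X Y : ℕ) : ℝ) ≤ Q * ((∏ q ∈ (Nat.gcd X Y).primeFactors, q : ℕ) : ℝ))
    {L : ℕ} (hL : Q < 2 ^ (L + 1)) : m ≤ L + 1 := by
  by_contra hcon
  push Not at hcon
  obtain ⟨g, hg⟩ : ∃ g, g = Nat.gcd X Y := ⟨_, rfl⟩
  rw [← hg] at hQ
  have hg0 : g ≠ 0 := by rw [hg]; exact (Nat.gcd_pos_of_pos_left _ hX).ne'
  have hdvd : p ^ m ∣ g := by rw [hg]; exact Nat.dvd_gcd hpX hpY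
  obtain ⟨h, hh⟩ := hdvd
  have hh0 : h ≠ 0 := by
    rintro rfl
    rw [mul_zero] at hh
    exact hg0 hh
  have h1 : g.primeFactors = (p * h).primeFactors := by
    rw [hh, Nat.primeFactors_mul (pow_ne_zero m hp.ne_zero) hh0,
      Nat.primeFactors_pow p (by omega), Nat.primeFactors_mul hp.ne_zero hh0]
  have h2 : (∏ q ∈ g.primeFactors, q) ≤ p * h := by
    rw [h1]
    exact Nat.le_of_dvd (Nat.pos_of_ne_zero (mul_ne_zero hp.ne_zero hh0))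
      (Nat.prod_primeFactors_dvd _)
  have hQ0 : 0 ≤ Q := by
    by_contra hneg
    push Not at hneg
    have h3 : (0 : ℝ) < g := by exact_mod_cast Nat.pos_of_ne_zero hg0
    have h4 : Q * ((∏ q ∈ g.primeFactors, q : ℕ) : ℝ) ≤ 0 :=
      mul_nonpos_of_nonpos_of_nonneg hneg.le (Nat.cast_nonneg _)
    linarith
  have h3 : ((∏ q ∈ g.primeFactors, q : ℕ) : ℝ) ≤ ((p * h : ℕ) : ℝ) := by exact_mod_cast h2
  have h4 : (g : ℝ) ≤ Q * ((p * h : ℕ) : ℝ) := hQ.trans (mul_le_mul_of_nonneg_left h3 hQ0)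
  have h5 : (g : ℝ) = (p : ℝ) ^ (m - 1) * ((p * h : ℕ) : ℝ) := by
    have : g = p ^ (m - 1) * (p * h) := by
      rw [hh, ← mul_assoc, ← pow_succ]
      congr 2
      omega
    rw [this]
    push_cast
    ring
  have h6 : (0 : ℝ) < ((p * h : ℕ) : ℝ) := by
    exact_mod_cast Nat.pos_of_ne_zero (mul_ne_zero hp.ne_zero hh0)
  have h7 : (p : ℝ) ^ (m - 1) ≤ Q := by
    rw [h5] at h4
    exact le_of_mul_le_mul_right h4 h6
  have h8 : (2 : ℝ) ^ (L + 1) ≤ (p : ℝ) ^ (m - 1) := by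
    calc (2 : ℝ) ^ (L + 1) ≤ 2 ^ (m - 1) := pow_le_pow_right₀ (by norm_num) (by omega)
      _ ≤ _ := pow_le_pow_left₀ (by norm_num) (by exact_mod_cast hp.two_le) _
  linarith

/-- a power of `p` dividing a product with a small factor -/
theorem pow_dvd_of_small {p a W m L : ℕ} (hp : p.Prime) (ha : 0 < a) (haL : a < 2 ^ (L + 1))
    (h : p ^ m ∣ a * W) : p ^ (m - L) ∣ W := by
  rcases Nat.eq_zero_or_pos W with rfl | hW
  · exact dvd_zero _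
  have h1 : m ≤ (a * W).factorization p :=
    (hp.pow_dvd_iff_le_factorization (mul_ne_zero ha.ne' hW.ne')).mp h
  rw [Nat.factorization_mul ha.ne' hW.ne', Finsupp.add_apply] at h1
  have h2 : a.factorization p ≤ L := by
    by_contra hcon
    push Not at hcon
    have h3 : p ^ (L + 1) ∣ a := (hp.pow_dvd_iff_le_factorization ha.ne').mpr hcon
    have h4 := Nat.le_of_dvd ha h3
    have h5 : 2 ^ (L + 1) ≤ p ^ (L + 1) := Nat.pow_le_pow_left hp.two_le _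
    omega
  rw [hp.pow_dvd_iff_le_factorization hW.ne']
  omega

/-- **The bound for the exponent of `p`** in one of the terms of `a₀ W₀ + a₁ W₁ = a₂ W₂`. -/
theorem exponent_bound {τ : Type*} [Fintype τ] {C κ : ℕ}
    (h : ∀ p : ℕ, p.Prime → ∀ S : ℕ, 1 ≤ S →
      p ≤ S → ∀ (Q b c : τ → ℕ) (N e : ℕ), (∀ i, 0 < Q i) →
      (∀ i, Q i ≤ 2 ^ S) → (∀ i, b i ≤ 2 ^ S) → (∀ i, c i ≤ 2 ^ S) →
      ∏ i, Q i ^ c i ≠ ∏ i, Q i ^ b i → ¬ p ^ (e + 1) ∣ ∏ i, Q i ^ c i →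
      (p : ℤ) ^ N ∣ ((∏ i, Q i ^ c i : ℕ) : ℤ) ^ 2 - ((∏ i, Q i ^ b i : ℕ) : ℤ) ^ 2 →
      N ≤ 2 * e + C * S ^ κ)
    {p : ℕ} (hp : p.Prime) {S : ℕ} (hS : 1 ≤ S) (hpS : p ≤ S) {Q : τ → ℕ} (hQ0 : ∀ i, 0 < Q i)
    (hQS : ∀ i, Q i ≤ 2 ^ S) {c : Fin 3 → τ → ℕ} (hcS : ∀ w i, c w i ≤ 2 ^ S)
    {a W : Fin 3 → ℕ} (ha : ∀ w, 0 < a w) {L : ℕ} (haL : ∀ w, a w < 2 ^ (L + 1))
    (hW : ∀ w, 0 < W w) (hprod : ∀ w, ∏ i, Q i ^ c w i = a w * W w)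
    (heq : a 0 * W 0 + a 1 * W 1 = a 2 * W 2) {G : ℝ} (hG : G < 2 ^ (L + 1))
    (hgcd : ((Nat.gcd (W 0) (W 1) : ℕ) : ℝ) ≤
      G * ((∏ q ∈ (Nat.gcd (W 0) (W 1)).primeFactors, q : ℕ) : ℝ))
    {w : Fin 3} {N : ℕ} (hN : p ^ N ∣ W w) : N ≤ 4 * L + 4 + C * S ^ κ := by
  by_contra hcon
  push Not at hcon
  have hP : ∀ w, 0 < a w * W w := fun w => Nat.mul_pos (ha w) (hW w)
  have hcomm : ∀ m, p ^ m ∣ W 0 → p ^ m ∣ W 1 → m ≤ L + 1 := fun m h0 h1 =>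
    pow_le_of_gcd hp (hW 0) h0 h1 hgcd hG
  -- a general step
  have hstep : ∀ u v : Fin 3, a u * W u ≠ a v * W v → ¬ p ^ (2 * L + 1 + 1) ∣ a u * W u →
      ¬ ((p : ℤ) ^ N ∣ ((a u * W u : ℕ) : ℤ) ^ 2 - ((a v * W v : ℕ) : ℤ) ^ 2) := by
    intro u v hne hnd hdvd
    have h1 := h p hp S hS hpS Q (c v) (c u) N (2 * L + 1) hQ0 hQS (hcS v) (hcS u)
      (by rw [hprod, hprod]; exact hne) (by rw [hprod]; exact hnd) (by rw [hprod, hprod]; exact hdvd)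
    omega
  have hdvdW : ∀ u : Fin 3, p ^ (2 * L + 1 + 1) ∣ a u * W u → p ^ (L + 2) ∣ W u := by
    intro u hu
    have h1 := pow_dvd_of_small hp (ha u) (haL u) hu
    have h2 : 2 * L + 1 + 1 - L = L + 2 := by omega
    rwa [h2] at h1
  have heqZ : ((a 0 * W 0 : ℕ) : ℤ) + ((a 1 * W 1 : ℕ) : ℤ) = ((a 2 * W 2 : ℕ) : ℤ) := by
    exact_mod_cast heq
  have hNL : L + 2 ≤ N := by omega
  have hpW : (p : ℤ) ^ N ∣ ((a w * W w : ℕ) : ℤ) := by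
    have h1 : p ^ N ∣ a w * W w := Dvd.dvd.mul_left hN _
    have h2 : ((p ^ N : ℕ) : ℤ) ∣ ((a w * W w : ℕ) : ℤ) := Int.natCast_dvd_natCast.mpr h1
    push_cast at h2 ⊢
    exact h2
  fin_cases w
  · -- `p ^ N ∣ W 0`
    simp only [Fin.zero_eta, Fin.isValue] at hN hpW
    refine hstep 1 2 ?_ ?_ ?_
    · have := hP 0
      omega
    · intro hd
      have := hcomm (L + 2) ((pow_dvd_pow p hNL).trans hN) (hdvdW 1 hd)
      omega
    · have h1 : ((a 1 * W 1 : ℕ) : ℤ) ^ 2 - ((a 2 * W 2 : ℕ) : ℤ) ^ 2 =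
          ((a 0 * W 0 : ℕ) : ℤ) * (-(((a 1 * W 1 : ℕ) : ℤ) + ((a 2 * W 2 : ℕ) : ℤ))) := by
        rw [← heqZ]
        ring
      rw [h1]
      exact Dvd.dvd.mul_right hpW _
  · -- `p ^ N ∣ W 1`
    simp only [Fin.mk_one, Fin.isValue] at hN hpW
    refine hstep 0 2 ?_ ?_ ?_
    · have := hP 1
      omega
    · intro hd
      have := hcomm (L + 2) (hdvdW 0 hd) ((pow_dvd_pow p hNL).trans hN)
      omega
    · have h1 : ((a 0 * W 0 : ℕ) : ℤ) ^ 2 - ((a 2 * W 2 : ℕ) : ℤ) ^ 2 =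
          ((a 1 * W 1 : ℕ) : ℤ) * (-(((a 0 * W 0 : ℕ) : ℤ) + ((a 2 * W 2 : ℕ) : ℤ))) := by
        rw [← heqZ]
        ring
      rw [h1]
      exact Dvd.dvd.mul_right hpW _
  · -- `p ^ N ∣ W 2`
    simp only [Fin.reduceFinMk, Fin.isValue] at hN hpW
    have hdvd : ∀ u v : Fin 3, ((a u * W u : ℕ) : ℤ) + ((a v * W v : ℕ) : ℤ) =
        ((a 2 * W 2 : ℕ) : ℤ) →
        (p : ℤ) ^ N ∣ ((a u * W u : ℕ) : ℤ) ^ 2 - ((a v * W v : ℕ) : ℤ) ^ 2 := by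
      intro u v huv
      have h1 : ((a u * W u : ℕ) : ℤ) ^ 2 - ((a v * W v : ℕ) : ℤ) ^ 2 =
          (((a u * W u : ℕ) : ℤ) + ((a v * W v : ℕ) : ℤ)) *
            (((a u * W u : ℕ) : ℤ) - ((a v * W v : ℕ) : ℤ)) := by ring
      rw [h1, huv]
      exact Dvd.dvd.mul_right hpW _
    have hnot : ¬ (p ^ (2 * L + 1 + 1) ∣ a 0 * W 0 ∧ p ^ (2 * L + 1 + 1) ∣ a 1 * W 1) := by
      rintro ⟨h0, h1⟩
      have := hcomm (L + 2) (hdvdW 0 h0) (hdvdW 1 h1)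
      omega
    by_cases hne : a 0 * W 0 = a 1 * W 1
    · have h2 : a 2 * W 2 = 2 * (a 0 * W 0) := by omega
      have h3 : p ^ N ∣ 2 * (a 0 * W 0) := by
        rw [← h2]
        exact Dvd.dvd.mul_left hN _
      have h4 := pow_dvd_of_small (L := 1) hp (by norm_num) (by norm_num) h3
      have h5 : p ^ (2 * L + 1 + 1) ∣ a 0 * W 0 := (pow_dvd_pow p (by omega)).trans h4
      exact hnot ⟨h5, by rw [← hne]; exact h5⟩
    · by_cases h0 : p ^ (2 * L + 1 + 1) ∣ a 0 * W 0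
      · have h1 : ¬ p ^ (2 * L + 1 + 1) ∣ a 1 * W 1 := fun h1 => hnot ⟨h0, h1⟩
        exact hstep 1 0 (fun h => hne h.symm) h1 (hdvd 1 0 (by rw [← heqZ]; ring))
      · exact hstep 0 1 hne h0 (hdvd 0 1 heqZ)

/-- a polynomial in a small power of `t` and in logarithms is less than the exponent -/
theorem no_large (C κ K : ℕ) {δ : ℝ} (hδ : 0 < δ) : ∃ δ' : ℝ, 0 < δ' ∧ ∃ t₀ : ℕ,
    ∀ t : ℕ, t₀ ≤ t → ∀ p N : ℕ, (p : ℝ) ≤ (t : ℝ) ^ δ' → (t : ℝ) ^ δ < N →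
      4 * Nat.log 2 t + 4 + C * (p + (K + 1) * (Nat.log 2 t + 1) + Nat.log 2 N + 1) ^ κ < N := by
  obtain ⟨ρ, hρ⟩ : ∃ ρ : ℝ, ρ = 1 / (2 * ((κ : ℝ) + 1)) := ⟨_, rfl⟩
  have hρ0 : 0 < ρ := by rw [hρ]; positivity
  have hρκ : ρ * κ ≤ 1 / 2 := by
    rw [hρ, div_mul_eq_mul_div, one_mul, div_le_div_iff₀ (by positivity) (by norm_num)]
    linarith
  obtain ⟨c, hc⟩ : ∃ c : ℝ, c = (K + 1) * (2 / δ + 1) + 3 := ⟨_, rfl⟩
  have hc0 : 0 < c := by rw [hc]; positivity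
  -- estimates in one real variable
  have h1 : ∀ᶠ x : ℝ in atTop, c * Real.log x + c ≤ x ^ ρ := by
    have e1 := (isLittleO_log_rpow_atTop hρ0).bound (show (0 : ℝ) < 1 / (2 * c) by positivity)
    have e2 := (tendsto_rpow_atTop hρ0).eventually_ge_atTop (2 * c)
    filter_upwards [e1, e2, eventually_ge_atTop (1 : ℝ)] with x h1 h2 h3
    rw [Real.norm_eq_abs, Real.norm_eq_abs, abs_of_nonneg (Real.log_nonneg h3),
      abs_of_nonneg (by positivity)] at h1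
    have h4 : c * Real.log x ≤ x ^ ρ / 2 := by
      calc c * Real.log x ≤ c * (1 / (2 * c) * x ^ ρ) := mul_le_mul_of_nonneg_left h1 hc0.le
        _ = x ^ ρ / 2 := by field_simp
    linarith
  have h2 : ∀ᶠ x : ℝ in atTop, 8 / δ * Real.log x + 4 < x / 2 := by
    have e1 := (Real.isLittleO_log_id_atTop).bound (show (0 : ℝ) < δ / 32 by positivity)
    filter_upwards [e1, eventually_ge_atTop (32 : ℝ)] with x h1 h3
    rw [Real.norm_eq_abs, Real.norm_eq_abs, id, abs_of_nonneg (Real.log_nonneg (by linarith)),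
      abs_of_nonneg (by linarith)] at h1
    have h4 : 8 / δ * Real.log x ≤ x / 4 := by
      calc 8 / δ * Real.log x ≤ 8 / δ * (δ / 32 * x) := mul_le_mul_of_nonneg_left h1 (by positivity)
        _ = x / 4 := by field_simp; norm_num
    linarith
  have h3 : ∀ᶠ x : ℝ in atTop, (C : ℝ) * 2 ^ κ * x ^ (1 / 2 : ℝ) ≤ x / 2 := by
    have e1 := (tendsto_rpow_atTop (show (0 : ℝ) < 1 / 2 by norm_num)).eventually_ge_atTop
      (2 * ((C : ℝ) * 2 ^ κ))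
    filter_upwards [e1, eventually_ge_atTop (1 : ℝ)] with x h1 h3
    have h4 : x ^ (1 / 2 : ℝ) * x ^ (1 / 2 : ℝ) = x := by
      rw [← Real.rpow_add (by linarith)]; norm_num
    have h5 : 0 ≤ x ^ (1 / 2 : ℝ) := by positivity
    nlinarith
  obtain ⟨x₀, hx₀⟩ := eventually_atTop.mp (h1.and (h2.and h3))
  have h4 : ∀ᶠ t : ℕ in atTop, max x₀ 1 ≤ (t : ℝ) ^ δ :=
    ((tendsto_rpow_atTop hδ).comp (tendsto_natCast_atTop_atTop (R := ℝ))).eventually_ge_atTop _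
  obtain ⟨t₀, ht₀⟩ := eventually_atTop.mp (h4.and (eventually_ge_atTop 2))
  refine ⟨δ * ρ, by positivity, t₀, ?_⟩
  intro t ht p N hpt htN
  obtain ⟨g1, g2⟩ := ht₀ t ht
  have htR : (2 : ℝ) ≤ t := by exact_mod_cast g2
  have ht0 : (0 : ℝ) < t := by linarith
  obtain ⟨x, hx⟩ : ∃ x : ℝ, x = N := ⟨_, rfl⟩
  rw [← hx] at htN
  have hx1 : 1 ≤ x := ((le_max_right _ _).trans g1).trans htN.le
  have hx0 : 0 < x := by linarith
  obtain ⟨e1, e2, e3⟩ := hx₀ x (((le_max_left _ _).trans g1).trans htN.le)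
  have hlx : 0 ≤ Real.log x := Real.log_nonneg hx1
  have hlog2 : 1 / 2 ≤ Real.log 2 := by
    have := Real.log_two_gt_d9
    linarith
  have hnl : ∀ m : ℕ, 1 ≤ m → ((Nat.log 2 m : ℕ) : ℝ) ≤ 2 * Real.log m := by
    intro m hm
    have h1 : 2 ^ Nat.log 2 m ≤ m := Nat.pow_log_le_self 2 (by omega)
    have h2 : (2 : ℝ) ^ (Nat.log 2 m) ≤ m := by exact_mod_cast h1
    have h3 : Real.log ((2 : ℝ) ^ (Nat.log 2 m)) ≤ Real.log m :=
      Real.log_le_log (by positivity) h2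
    rw [Real.log_pow] at h3
    have h4 : (0 : ℝ) ≤ (Nat.log 2 m : ℕ) := Nat.cast_nonneg _
    nlinarith
  have hlt : Real.log t ≤ Real.log x / δ := by
    rw [le_div_iff₀ hδ]
    have h5 := Real.log_le_log (by positivity) htN.le
    rw [Real.log_rpow ht0] at h5
    linarith
  have hLt : ((Nat.log 2 t : ℕ) : ℝ) ≤ 2 / δ * Real.log x := by
    have := hnl t (by omega)
    calc ((Nat.log 2 t : ℕ) : ℝ) ≤ 2 * Real.log t := this
      _ ≤ 2 * (Real.log x / δ) := by linarith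
      _ = _ := by ring
  have hN1 : 1 ≤ N := by
    have : (1 : ℝ) ≤ N := by rw [← hx]; exact hx1
    exact_mod_cast this
  have hLN : ((Nat.log 2 N : ℕ) : ℝ) ≤ 2 * Real.log x := by rw [hx]; exact hnl N hN1
  have hpx : (p : ℝ) ≤ x ^ ρ := by
    refine hpt.trans ?_
    rw [Real.rpow_mul ht0.le]
    exact Real.rpow_le_rpow (by positivity) htN.le hρ0.le
  have hin : (p : ℝ) + (K + 1) * ((Nat.log 2 t : ℕ) + 1) + (Nat.log 2 N : ℕ) + 1 ≤ 2 * x ^ ρ := by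
    have h5 : ((K : ℝ) + 1) * ((Nat.log 2 t : ℕ) + 1) ≤ (K + 1) * (2 / δ * Real.log x + 1) :=
      mul_le_mul_of_nonneg_left (by linarith) (by positivity)
    have h6 : ((K : ℝ) + 1) * (2 / δ * Real.log x + 1) + 2 * Real.log x + 1 ≤
        c * Real.log x + c := by
      rw [hc]
      have : 0 ≤ ((K : ℝ) + 1) * (2 / δ) := by positivity
      have : 0 ≤ ((K : ℝ) + 1) * Real.log x := by positivity
      nlinarith
    linarith
  have hfin : (4 * (Nat.log 2 t : ℕ) + 4 + (C : ℝ) * ((p : ℝ) + (K + 1) * ((Nat.log 2 t : ℕ) + 1) +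
      (Nat.log 2 N : ℕ) + 1) ^ κ) < x := by
    have h5 : ((p : ℝ) + (K + 1) * ((Nat.log 2 t : ℕ) + 1) + (Nat.log 2 N : ℕ) + 1) ^ κ ≤
        2 ^ κ * x ^ (1 / 2 : ℝ) := by
      calc _ ≤ (2 * x ^ ρ) ^ κ := pow_le_pow_left₀ (by positivity) hin κ
        _ = 2 ^ κ * x ^ (ρ * κ) := by rw [mul_pow, ← Real.rpow_mul_natCast hx0.le]
        _ ≤ _ := mul_le_mul_of_nonneg_left (Real.rpow_le_rpow_of_exponent_le hx1 hρκ)
            (by positivity)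
    have h6 : (C : ℝ) * ((p : ℝ) + (K + 1) * ((Nat.log 2 t : ℕ) + 1) +
        (Nat.log 2 N : ℕ) + 1) ^ κ ≤ C * 2 ^ κ * x ^ (1 / 2 : ℝ) := by
      rw [mul_assoc]
      exact mul_le_mul_of_nonneg_left h5 (Nat.cast_nonneg _)
    have h7 : 4 * ((Nat.log 2 t : ℕ) : ℝ) ≤ 8 / δ * Real.log x := by
      calc 4 * ((Nat.log 2 t : ℕ) : ℝ) ≤ 4 * (2 / δ * Real.log x) := by linarith
        _ = _ := by ring
    linarith
  rw [hx] at hfin
  exact_mod_cast hfin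

end Pool.Agent.Q103.SP
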