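import Mathlib

/-!
# Common double factors of two polynomials and the greatest common divisor of their values
-/

set_option autoImplicit false

namespace Pool.Agent.Q103.SP

open Polynomial

/-- the roots of a monic polynomial with small coefficients -/
theorem root_le {F : ℤ[X]} (hm : F.Monic) {H : ℝ} (hH : 0 ≤ H) (hc : ∀ j, |(F.coeff j : ℝ)| ≤ H)
    {r : ℂ} (hr : (F.map (Int.castRingHom ℂ)).IsRoot r) : ‖r‖ ≤ H + 1 := by
  have hm' : (F.map (Int.castRingHom ℂ)).Monic := hm.map _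
  have h1 := Polynomial.IsRoot.norm_lt_cauchyBound hm'.ne_zero hr
  have h2 : (cauchyBound (F.map (Int.castRingHom ℂ)) : ℝ) ≤ H + 1 := by
    unfold cauchyBound
    rw [hm'.leadingCoeff, nnnorm_one, div_one]
    push_cast
    apply add_le_add_left
    have h3 : (Finset.sup (Finset.range (F.map (Int.castRingHom ℂ)).natDegree)
        fun j => ‖(F.map (Int.castRingHom ℂ)).coeff j‖₊) ≤ H.toNNReal := by
      apply Finset.sup_le
      intro j _
      rw [← NNReal.coe_le_coe, Real.coe_toNNReal _ hH, coe_nnnorm, coeff_map, eq_intCast,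
        Complex.norm_intCast]
      exact hc j
    have h4 := NNReal.coe_le_coe.mpr h3
    rw [Real.coe_toNNReal _ hH] at h4
    exact h4
  have h5 : (‖r‖₊ : ℝ) < (cauchyBound (F.map (Int.castRingHom ℂ)) : ℝ) := by exact_mod_cast h1
  rw [coe_nnnorm] at h5
  linarith

/-- the value of a factor of a monic polynomial with small coefficients at a large integer -/
theorem factor_lower {P F : ℤ[X]} (hP : P.Monic) (hP1 : 0 < P.natDegree) (hdvd : P ∣ F)
    (hm : F.Monic) {H : ℝ} (hH : 0 ≤ H) (hc : ∀ j, |(F.coeff j : ℝ)| ≤ H) {t : ℤ}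
    (ht : 2 * (H + 2) ≤ (t : ℝ)) : (t : ℝ) / 2 ≤ |((P.eval t : ℤ) : ℝ)| := by
  have ht2 : 2 ≤ (t : ℝ) := by linarith
  obtain ⟨φ, hφ⟩ : ∃ φ, φ = Int.castRingHom ℂ := ⟨_, rfl⟩
  have hPm : (P.map φ).Monic := hP.map _
  have hs : (P.map φ).Splits := IsAlgClosed.splits _
  have h1 := hs.eval_eq_prod_roots_of_monic hPm (t : ℂ)
  have h2 : (P.map φ).eval (t : ℂ) = ((P.eval t : ℤ) : ℂ) := by
    rw [hφ, eval_map]
    simp
  have h3 : |((P.eval t : ℤ) : ℝ)| = ‖(P.map φ).eval (t : ℂ)‖ := by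
    rw [h2, Complex.norm_intCast]
  rw [h3, h1]
  have hroots : ∀ r ∈ (P.map φ).roots, (t : ℝ) / 2 ≤ ‖(t : ℂ) - r‖ := by
    intro r hr
    have hr1 : (P.map φ).IsRoot r := (mem_roots hPm.ne_zero).mp hr
    have hr2 : (F.map (Int.castRingHom ℂ)).IsRoot r := by
      rw [← hφ]
      exact hr1.dvd (Polynomial.map_dvd φ hdvd)
    have h4 := root_le hm hH hc hr2
    have h5 : ‖(t : ℂ)‖ = t := by
      rw [Complex.norm_intCast, abs_of_nonneg (by linarith)]
    have h6 := norm_sub_norm_le (t : ℂ) r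
    rw [h5] at h6
    linarith
  have hcard : 0 < Multiset.card (P.map φ).roots := by
    rw [← hs.natDegree_eq_card_roots, hP.natDegree_map]
    exact hP1
  have hgen : ∀ s : Multiset ℂ, (∀ r ∈ s, (t : ℝ) / 2 ≤ ‖(t : ℂ) - r‖) →
      ((t : ℝ) / 2) ^ (Multiset.card s) ≤ ‖(s.map fun r => (t : ℂ) - r).prod‖ := by
    intro s
    induction s using Multiset.induction_on with
    | empty => simp
    | cons a s ih =>
      intro h
      rw [Multiset.card_cons, Multiset.map_cons, Multiset.prod_cons, norm_mul, pow_succ, mul_comm]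
      apply mul_le_mul (h a (Multiset.mem_cons_self a s)) _ (by positivity) (norm_nonneg _)
      exact ih fun r hr => h r (Multiset.mem_cons_of_mem hr)
  have h7 := hgen _ hroots
  have h8 : (t : ℝ) / 2 ≤ ((t : ℝ) / 2) ^ (Multiset.card (P.map φ).roots) :=
    le_self_pow₀ (by linarith) hcard.ne'
  exact h8.trans h7

/-- if `d ^ 2 ∣ g` and `g ≤ Q * rad g` then `d ≤ Q` -/
theorem le_of_sq_dvd {g d : ℕ} (hg : g ≠ 0) (hd : d ^ 2 ∣ g) {Q : ℝ}
    (hQ : (g : ℝ) ≤ Q * ((∏ p ∈ g.primeFactors, p : ℕ) : ℝ)) : (d : ℝ) ≤ Q := by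
  obtain ⟨m, hm⟩ := hd
  have hd0 : d ≠ 0 := by
    rintro rfl
    rw [hm] at hg
    simp at hg
  have hm0 : m ≠ 0 := by
    rintro rfl
    rw [mul_zero] at hm
    exact hg hm
  have h1 : g.primeFactors = (d * m).primeFactors := by
    rw [hm, Nat.primeFactors_mul (pow_ne_zero 2 hd0) hm0, Nat.primeFactors_pow d two_ne_zero,
      Nat.primeFactors_mul hd0 hm0]
  have h2 : (∏ p ∈ g.primeFactors, p) ≤ d * m := by
    rw [h1]
    exact Nat.le_of_dvd (Nat.pos_of_ne_zero (mul_ne_zero hd0 hm0)) (Nat.prod_primeFactors_dvd _)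
  obtain ⟨R, hR⟩ : ∃ R, R = ∏ p ∈ g.primeFactors, p := ⟨_, rfl⟩
  rw [← hR] at h2 hQ
  have hR0 : 0 < R := by
    rw [hR]
    exact Finset.prod_pos fun p hp => (Nat.prime_of_mem_primeFactors hp).pos
  have h3 : ((d * R : ℕ) : ℝ) ≤ g := by
    have : d * R ≤ g := by
      rw [hm]
      calc d * R ≤ d * (d * m) := Nat.mul_le_mul_left _ h2
        _ = d ^ 2 * m := by ring
    exact_mod_cast this
  have hR0' : (0 : ℝ) < R := by exact_mod_cast hR0
  push_cast at h3
  have h4 : (d : ℝ) * R ≤ Q * R := h3.trans hQ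
  exact le_of_mul_le_mul_right h4 hR0'

/-- if `X` and `Y` have a common double factor, then the greatest common divisor of the values is
divisible by the square of a large number -/
theorem no_square {κ : Type*} [Fintype κ] {F : κ → ℤ[X]} (hm : ∀ i, (F i).Monic) {H : ℝ}
    (hH : 0 ≤ H) (hc : ∀ i j, |((F i).coeff j : ℝ)| ≤ H) {t : ℤ} (ht : 2 * (H + 2) ≤ (t : ℝ))
    {Q : ℝ} (hQ : Q < (t : ℝ) / 2) (x y : κ → ℕ) {g : ℕ}
    (hg0 : g ≠ 0) (hg : (g : ℤ) = Int.gcd ((∏ i, F i ^ x i).eval t) ((∏ i, F i ^ y i).eval t))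
    (hgQ : (g : ℝ) ≤ Q * ((∏ p ∈ g.primeFactors, p : ℕ) : ℝ)) (P : ℚ[X]) (hP : Prime P) :
    ¬ (P ^ 2 ∣ (∏ i, F i ^ x i).map (Int.castRingHom ℚ) ∧
      P ^ 2 ∣ (∏ i, F i ^ y i).map (Int.castRingHom ℚ)) := by
  classical
  rintro ⟨h1, h2⟩
  have hprodm : ∀ e : κ → ℕ, (∏ i, F i ^ e i).Monic := fun e =>
    monic_prod_of_monic _ _ fun i _ => (hm i).pow _
  have hP0 := hP.ne_zero
  -- the prime divides one of the `F i`
  obtain ⟨i, hi⟩ : ∃ i, P ∣ (F i).map (Int.castRingHom ℚ) := by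
    have h3 : P ∣ (∏ i, F i ^ x i).map (Int.castRingHom ℚ) := (dvd_pow_self P two_ne_zero).trans h1
    rw [Polynomial.map_prod, hP.dvd_finsetProd_iff] at h3
    obtain ⟨i, -, hi⟩ := h3
    rw [Polynomial.map_pow] at hi
    exact ⟨i, hP.dvd_of_dvd_pow hi⟩
  have hi' : P ∣ (F i).map (algebraMap ℤ ℚ) := hi
  obtain ⟨P', hP'⟩ := IsIntegrallyClosed.eq_map_mul_C_of_dvd ℚ (hm i) hi'
  have hlc : P.leadingCoeff ≠ 0 := leadingCoeff_ne_zero.mpr hP0
  have hC : IsUnit (C P.leadingCoeff) := isUnit_C.mpr (isUnit_iff_ne_zero.mpr hlc)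
  have hmapeq : algebraMap ℤ ℚ = Int.castRingHom ℚ := rfl
  rw [hmapeq] at hP'
  have hP'm : P'.Monic := by
    have h3 := congrArg leadingCoeff hP'
    rw [leadingCoeff_mul, leadingCoeff_C,
      leadingCoeff_map_of_injective (RingHom.injective_int (Int.castRingHom ℚ))] at h3
    have h4 : (Int.castRingHom ℚ) P'.leadingCoeff = 1 := by
      have : (Int.castRingHom ℚ) P'.leadingCoeff * P.leadingCoeff = 1 * P.leadingCoeff := by
        rw [h3, one_mul]
      exact mul_right_cancel₀ hlc this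
    rw [eq_intCast] at h4
    exact_mod_cast h4
  have hassoc : ∀ e : ℕ, (P'.map (Int.castRingHom ℚ)) ^ e ∣ P ^ e := by
    intro e
    conv_rhs => rw [← hP', mul_pow]
    exact dvd_mul_right _ _
  have hdeg : 0 < P'.natDegree := by
    by_contra h0
    have h3 : P'.natDegree = 0 := by omega
    have h4 : P' = 1 := hP'm.natDegree_eq_zero.mp h3
    rw [h4, Polynomial.map_one, one_mul] at hP'
    apply hP.not_isUnit
    rw [← hP']
    exact hC
  have hdvdF : P' ∣ F i := by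
    rw [← Polynomial.map_dvd_map (Int.castRingHom ℚ) (RingHom.injective_int _) hP'm]
    have := hassoc 1
    rw [pow_one, pow_one] at this
    exact this.trans hi
  have hsq : ∀ e : κ → ℕ, P ^ 2 ∣ (∏ i, F i ^ e i).map (Int.castRingHom ℚ) →
      P' ^ 2 ∣ ∏ i, F i ^ e i := by
    intro e he
    rw [← Polynomial.map_dvd_map (Int.castRingHom ℚ) (RingHom.injective_int _) (hP'm.pow 2),
      Polynomial.map_pow]
    exact (hassoc 2).trans he
  have hlow := factor_lower hP'm hdeg hdvdF (hm i) hH (hc i) ht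
  obtain ⟨d, hd⟩ : ∃ d, d = (P'.eval t).natAbs := ⟨_, rfl⟩
  have hdg : d ^ 2 ∣ g := by
    have h3 : ∀ e : κ → ℕ, P' ^ 2 ∣ ∏ i, F i ^ e i → ((d ^ 2 : ℕ) : ℤ) ∣ (∏ i, F i ^ e i).eval t := by
      intro e he
      have h4 := Polynomial.eval_dvd (x := t) he
      rw [eval_pow] at h4
      push_cast
      rw [hd, Int.natCast_natAbs, sq_abs]
      exact h4
    have h5 : ((d ^ 2 : ℕ) : ℤ) ∣ (g : ℤ) := by
      rw [hg]
      exact Int.dvd_coe_gcd (h3 x (hsq x h1)) (h3 y (hsq y h2))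
    exact Int.natCast_dvd_natCast.mp h5
  have h6 := le_of_sq_dvd hg0 hdg hgQ
  have h7 : (d : ℝ) = |((P'.eval t : ℤ) : ℝ)| := by
    rw [hd, Nat.cast_natAbs, Int.cast_abs]
  linarith

end Pool.Agent.Q103.SP
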