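import Mathlib

/-!
# The Mason–Stothers inequality if the greatest common divisor is squarefree
-/

set_option autoImplicit false

namespace Pool.Agent.Q103.SP

open Polynomial UniqueFactorizationMonoid

variable {k : Type*} [Field k] [CharZero k] [DecidableEq k]

omit [CharZero k] in
theorem rad_mul_le {a b : k[X]} :
    (radical (a * b)).natDegree ≤ (radical a).natDegree + (radical b).natDegree := by
  refine (natDegree_le_of_dvd radical_mul_dvd (mul_ne_zero radical_ne_zero radical_ne_zero)).trans ?_
  exact natDegree_mul_le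

omit [CharZero k] in
theorem rad_prime_mul {P a : k[X]} (hP : Prime P) (ha : a ≠ 0) :
    (radical a).natDegree ≤ (radical (P * a)).natDegree ∧
      (¬ P ∣ a → P.natDegree + (radical a).natDegree ≤ (radical (P * a)).natDegree) := by
  constructor
  · exact natDegree_le_of_dvd (radical_dvd_radical (dvd_mul_left _ _) (mul_ne_zero hP.ne_zero ha))
      radical_ne_zero
  · intro hPa
    have h1 : IsRelPrime P a := by
      rw [isRelPrime_comm]
      exact ((Prime.irreducible hP).isRelPrime_iff_not_dvd.mpr hPa).symm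
    rw [radical_mul h1, natDegree_mul radical_ne_zero radical_ne_zero, radical_of_prime hP]
    have h2 : (normalize P).natDegree = P.natDegree :=
      natDegree_eq_of_degree_eq (degree_eq_degree_of_associated (normalize_associated P))
    rw [h2]

/-- the case of coprime polynomials -/
theorem mason_coprime {X Y Z : k[X]} (hX : X ≠ 0) (hY : Y ≠ 0) (hZ : Z ≠ 0) (hXY : IsCoprime X Y)
    (hsum : X + Y = Z) (hdeg : 1 ≤ max X.natDegree (max Y.natDegree Z.natDegree)) :
    max X.natDegree (max Y.natDegree Z.natDegree) + 1 ≤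
      (radical X).natDegree + (radical Y).natDegree + (radical Z).natDegree := by
  have h := Polynomial.abc hX hY (neg_ne_zero.mpr hZ) hXY (by rw [hsum]; ring)
  have hr : (radical (X * Y * -Z)).natDegree ≤
      (radical X).natDegree + (radical Y).natDegree + (radical Z).natDegree := by
    refine rad_mul_le.trans ?_
    rw [UniqueFactorizationDomain.radical_neg]
    exact Nat.add_le_add_right rad_mul_le _
  rcases h with ⟨h1, h2, h3⟩ | ⟨h1, h2, h3⟩
  · rw [natDegree_neg] at h3
    have : max X.natDegree (max Y.natDegree Z.natDegree) + 1 ≤ (radical (X * Y * -Z)).natDegree := by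
      omega
    omega
  · exfalso
    have e1 := derivative_eq_zero.mp h1
    have e2 := derivative_eq_zero.mp h2
    have e3 := derivative_eq_zero.mp h3
    rw [natDegree_neg] at e3
    omega

/-- **Mason–Stothers** if no square of a prime divides all three polynomials. -/
theorem mason_sq (n : ℕ) : ∀ {X Y Z : k[X]}, X.natDegree ≤ n → X ≠ 0 → Y ≠ 0 → Z ≠ 0 → X + Y = Z →
    (∀ P : k[X], Prime P → ¬ (P ^ 2 ∣ X ∧ P ^ 2 ∣ Y)) →
    1 ≤ max X.natDegree (max Y.natDegree Z.natDegree) →
    max X.natDegree (max Y.natDegree Z.natDegree) + 1 ≤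
      (radical X).natDegree + (radical Y).natDegree + (radical Z).natDegree := by
  induction n using Nat.strong_induction_on with
  | _ n ih =>
    intro X Y Z hn hX hY hZ hsum hsq hdeg
    by_cases hco : IsCoprime X Y
    · exact mason_coprime hX hY hZ hco hsum hdeg
    · obtain ⟨P, hP, hPX, hPY⟩ : ∃ P : k[X], Prime P ∧ P ∣ X ∧ P ∣ Y := by
        by_contra hcon
        push Not at hcon
        exact hco (isCoprime_of_prime_dvd (fun h => hX h.1) (fun z hz h1 => hcon z hz h1))
      obtain ⟨X₁, rfl⟩ := hPX
      obtain ⟨Y₁, rfl⟩ := hPY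
      have hP0 := hP.ne_zero
      have hX₁ : X₁ ≠ 0 := right_ne_zero_of_mul hX
      have hY₁ : Y₁ ≠ 0 := right_ne_zero_of_mul hY
      obtain ⟨Z₁, hZ₁⟩ : ∃ Z₁, Z₁ = X₁ + Y₁ := ⟨_, rfl⟩
      have hZP : Z = P * Z₁ := by rw [hZ₁, ← hsum]; ring
      have hZ₁0 : Z₁ ≠ 0 := by
        rintro h
        apply hZ
        rw [hZP, h, mul_zero]
      have hPd : 0 < P.natDegree := by
        by_contra h0
        have h1 : P.natDegree = 0 := by omega
        obtain ⟨c, hc⟩ := natDegree_eq_zero.mp h1
        apply hP.not_isUnit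
        rw [← hc]
        apply isUnit_C.mpr
        rw [isUnit_iff_ne_zero]
        rintro rfl
        rw [C_0] at hc
        exact hP0 hc.symm
      have hnot : ¬ (P ∣ X₁ ∧ P ∣ Y₁) := by
        rintro ⟨h1, h2⟩
        apply hsq P hP
        rw [pow_two]
        exact ⟨mul_dvd_mul_left P h1, mul_dvd_mul_left P h2⟩
      have hXZ : ¬ (P ∣ X₁ ∧ P ∣ Z₁) := by
        rintro ⟨h1, h2⟩
        refine hnot ⟨h1, ?_⟩
        have := dvd_sub h2 h1
        rwa [hZ₁, add_sub_cancel_left] at this
      have hYZ : ¬ (P ∣ Y₁ ∧ P ∣ Z₁) := by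
        rintro ⟨h1, h2⟩
        refine hnot ⟨?_, h1⟩
        have := dvd_sub h2 h1
        rwa [hZ₁, add_sub_cancel_right] at this
      obtain ⟨rX, rX'⟩ := rad_prime_mul hP hX₁
      obtain ⟨rY, rY'⟩ := rad_prime_mul hP hY₁
      obtain ⟨rZ, rZ'⟩ := rad_prime_mul hP hZ₁0
      rw [hZP, natDegree_mul hP0 hX₁, natDegree_mul hP0 hY₁, natDegree_mul hP0 hZ₁0]
      rw [natDegree_mul hP0 hX₁] at hn
      have hsum3 : (radical X₁).natDegree + (radical Y₁).natDegree + (radical Z₁).natDegree +
          2 * P.natDegree ≤ (radical (P * X₁)).natDegree + (radical (P * Y₁)).natDegree +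
            (radical (P * Z₁)).natDegree := by
        by_cases h1 : P ∣ X₁
        · have h2 := rY' (fun h => hnot ⟨h1, h⟩)
          have h3 := rZ' (fun h => hXZ ⟨h1, h⟩)
          omega
        · have h2 := rX' h1
          by_cases h4 : P ∣ Y₁
          · have h3 := rZ' (fun h => hYZ ⟨h4, h⟩)
            omega
          · have h3 := rY' h4
            omega
      by_cases hm : 1 ≤ max X₁.natDegree (max Y₁.natDegree Z₁.natDegree)
      · have hIH := ih X₁.natDegree (by omega) le_rfl hX₁ hY₁ hZ₁0 hZ₁.symm (by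
          intro R hR h
          apply hsq R hR
          exact ⟨h.1.trans (dvd_mul_left _ _), h.2.trans (dvd_mul_left _ _)⟩) hm
        omega
      · have e1 : X₁.natDegree = 0 := by omega
        have e2 : Y₁.natDegree = 0 := by omega
        have e3 : Z₁.natDegree = 0 := by omega
        omega

end Pool.Agent.Q103.SP
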