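import Mathlib
import Pool.Agent.Q103.SD.Drop
import Pool.Agent.Q103.SD.Three

/-!
# Sums of products of powers without vanishing subsums: first coefficients

No condition on the last digits.
-/

set_option autoImplicit false

namespace Pool.Agent.Q103.SP

open Polynomial Finset Pool.Agent.Q103.SD

section

variable {A : Type*} [CommRing A] [IsDomain A] [CharZero A] {κ ι : Type*} [Fintype κ] [Fintype ι]
  {s : A → ℝ}

/-- **The upper end of a sum of products of powers without vanishing subsums.** -/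
theorem top_end (hs : SizeFn s) {F : κ → A[X]} (hF : ∀ i, F i ≠ 0) {D : ℕ}
    (hD : ∑ i, (F i).natDegree ≤ D) {H : ℝ} (hH : 1 ≤ H) (hlc : ∀ i, s (F i).leadingCoeff ≤ 1)
    (hFH : ∀ i j, s ((F i).coeff j) ≤ H) {α : ι → A} (hα : ∀ k, α k ≠ 0)
    (hαH : ∀ k, s (α k) ≤ H) (e : ι → κ → ℕ) {N : ℕ} (hN : 1 ≤ N) (heN : ∀ k, ∑ i, e k i ≤ N)
    [Nonempty ι] (hno : ∀ L : Finset ι, L.Nonempty → ∑ k ∈ L, PP F (α k) (e k) ≠ 0)
    {J : ℕ} (hJ2 : JJ (D + 1) (Fintype.card ι) ≤ J) (t : A) :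
    ∃ (j : ℕ) (r : A), j < J ∧ r ≠ 0 ∧
      s r ≤ Fintype.card ι * H * (N * H) ^ J ∧
      ∀ σ : A →+* ℂ, (∀ x, ‖σ x‖ ≤ s x) → 2 * (N * H) ≤ ‖σ t‖ → ∀ k,
        ‖σ ((PP F (α k) (e k)).eval t)‖ *
          (‖σ r‖ - 2 * (Fintype.card ι * H * (N * H) ^ J) * (N * H) / ‖σ t‖) ≤
        2 * H * ‖σ t‖ ^ j * ‖σ ((∑ k, PP F (α k) (e k)).eval t)‖ := by
  classical
  have hN1 : (1 : ℝ) ≤ N := by exact_mod_cast hN
  have hNH : 1 ≤ (N : ℝ) * H := by nlinarith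
  obtain ⟨P, hP⟩ : ∃ P, P = ∑ k, PP F (α k) (e k) := ⟨_, rfl⟩
  have hcard : (1 : ℝ) ≤ Fintype.card ι := by exact_mod_cast Fintype.card_pos
  obtain ⟨C, hC⟩ : ∃ C : ℝ, C = Fintype.card ι * H := ⟨_, rfl⟩
  have hC0 : 0 ≤ C := by rw [hC]; positivity
  have hmono : ∀ m, m ≤ J → C * (N * H) ^ m ≤ C * (N * H) ^ J := fun m hm =>
    mul_le_mul_of_nonneg_left (pow_le_pow_right₀ hNH hm) hC0
  obtain ⟨k0⟩ := ‹Nonempty ι›
  -- the first coefficients
  obtain ⟨k1, -, hk1⟩ := Finset.exists_max_image Finset.univ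
    (fun k => ∑ i, e k i * (F i).natDegree) ⟨k0, Finset.mem_univ _⟩
  obtain ⟨E, hE⟩ : ∃ E, E = ∑ i, e k1 i * (F i).natDegree := ⟨_, rfl⟩
  have hEk : ∀ k, ∑ i, e k i * (F i).natDegree ≤ E := fun k => by
    rw [hE]
    exact hk1 k (Finset.mem_univ _)
  obtain ⟨R, hR⟩ : ∃ R, R = ∑ k, PP (RF F) (α k) (RE E F (e k)) := ⟨_, rfl⟩
  have hRF : ∀ i, RF F i ≠ 0 := by
    intro i
    rcases i with _ | i
    · exact X_ne_zero
    · simp only [RF]
      rw [Ne, reverse_eq_zero]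
      exact hF i
  have hRD : ∑ i, (RF F i).natDegree ≤ D + 1 := by
    rw [Fintype.sum_option]
    simp only [RF]
    rw [natDegree_X, add_comm]
    apply Nat.add_le_add_right
    refine le_trans (Finset.sum_le_sum fun i _ => ?_) hD
    exact reverse_natDegree_le _
  have hRne : ¬ X ^ (JJ (D + 1) (Fintype.card ι)) ∣ R := by
    intro h
    rw [hR] at h
    obtain ⟨L, hL, hL0⟩ := gap_subsum hRF hRD hα (fun k => RE E F (e k)) k1 (by
      rw [PP_RF, ← hE, Nat.sub_self, pow_zero, one_mul, coeff_zero_reverse]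
      exact leadingCoeff_ne_zero.mpr (PP_ne_zero hF (hα k1) _)) h
    exact hno L ⟨k1, hL⟩ (subsum_of_RF hF hα e hEk L hL0)
  have hR0 : R ≠ 0 := by
    rintro rfl
    exact hRne (dvd_zero _)
  have hj : R.natTrailingDegree < JJ (D + 1) (Fintype.card ι) := by
    by_contra hcon
    push Not at hcon
    apply hRne
    rw [X_pow_dvd_iff]
    intro d hd
    exact coeff_eq_zero_of_lt_natTrailingDegree (hd.trans_le hcon)
  have hcRk : ∀ k j, s ((PP (RF F) (α k) (RE E F (e k))).coeff j) ≤ H * (N * H) ^ j :=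
    fun k j => coeff_RF hs hH hFH hlc (hαH k) (e k) hN (heN k) E j
  have hcR : ∀ j, s (R.coeff j) ≤ C * (N * H) ^ j := by
    intro j
    rw [hR, hC]
    exact coeff_sum_le hs hcRk j
  obtain ⟨j, hjj⟩ : ∃ j, j = R.natTrailingDegree := ⟨_, rfl⟩
  rw [← hjj] at hj
  refine ⟨j, R.coeff j, by omega, ?_, ?_, ?_⟩
  · rw [hjj]; exact trailingCoeff_nonzero_iff_nonzero.mpr hR0
  · rw [← hC]; exact (hcR j).trans (hmono j (by omega))
  · intro σ hσ hσt k
    have hZ0 : 0 < ‖σ t‖ := by linarith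
    have hz : σ t ≠ 0 := norm_pos_iff.mp hZ0
    obtain ⟨u, hu⟩ : ∃ u, u = (σ t)⁻¹ := ⟨_, rfl⟩
    have hun : ‖u‖ = ‖σ t‖⁻¹ := by rw [hu, norm_inv]
    have hus : 2 * (N * H) * ‖u‖ ≤ 1 := by
      rw [hun, ← div_eq_mul_inv, div_le_one hZ0]
      exact hσt
    have hNH0 : 0 ≤ (N : ℝ) * H := by linarith
    -- the term
    have hT : ‖σ ((PP F (α k) (e k)).eval t)‖ ≤ 2 * H * ‖σ t‖ ^ E := by
      rw [← eval_RF hF (hα k) (e k) (hEk k) σ hz, norm_mul, norm_pow, ← hu, mul_comm]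
      apply mul_le_mul_of_nonneg_right _ (by positivity)
      have h1 := eval_near hσ (by linarith : 0 ≤ H) hNH0 (hcRk k) hus
      have h2 := hcRk k 0
      rw [pow_zero, mul_one] at h2
      have h3 := norm_le_norm_add_norm_sub' ((PP (RF F) (α k) (RE E F (e k))).eval₂ σ u)
        (σ ((PP (RF F) (α k) (RE E F (e k))).coeff 0))
      have h4 : ‖σ ((PP (RF F) (α k) (RE E F (e k))).coeff 0)‖ ≤ H := (hσ _).trans h2
      have h5 : 2 * H * (N * H) * ‖u‖ ≤ H := by nlinarith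
      linarith
    -- the sum
    have hsum : ‖σ t‖ ^ E * ‖R.eval₂ σ u‖ = ‖σ (P.eval t)‖ := by
      have h1 : σ t ^ E * R.eval₂ σ u = σ (P.eval t) := by
        rw [hR, hP, eval₂_finset_sum, Finset.mul_sum, eval_finset_sum, map_sum]
        apply Finset.sum_congr rfl
        intro k _
        rw [hu]
        exact eval_RF hF (hα k) (e k) (hEk k) σ hz
      rw [← h1, norm_mul, norm_pow]
    obtain ⟨Q, hQ⟩ : X ^ j ∣ R := by
      rw [X_pow_dvd_iff]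
      intro d hd
      exact coeff_eq_zero_of_lt_natTrailingDegree (by omega)
    have hQc : ∀ m, Q.coeff m = R.coeff (m + j) := by
      intro m
      rw [hQ, coeff_X_pow_mul]
    have hQb : ∀ m, s (Q.coeff m) ≤ (C * (N * H) ^ j) * (N * H) ^ m := by
      intro m
      rw [hQc, mul_assoc, ← pow_add, add_comm j m]
      exact hcR _
    have h6 := eval_near hσ (by positivity : 0 ≤ C * ((N : ℝ) * H) ^ j) hNH0 hQb hus
    have hQ0 : Q.coeff 0 = R.coeff j := by rw [hQc, zero_add]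
    rw [hQ0] at h6
    have h7 : ‖σ (R.coeff j)‖ - 2 * (C * (N * H) ^ J) * (N * H) / ‖σ t‖ ≤ ‖Q.eval₂ σ u‖ := by
      have h8 : ‖σ (R.coeff j)‖ ≤ ‖Q.eval₂ σ u‖ + ‖Q.eval₂ σ u - σ (R.coeff j)‖ :=
        norm_le_norm_add_norm_sub _ _
      have h9 : 2 * (C * (N * H) ^ j) * (N * H) * ‖u‖ ≤
          2 * (C * (N * H) ^ J) * (N * H) / ‖σ t‖ := by
        rw [hun, ← div_eq_mul_inv]
        apply div_le_div_of_nonneg_right _ hZ0.le
        have := hmono j (by omega)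
        nlinarith
      linarith
    have h10 : ‖R.eval₂ σ u‖ * ‖σ t‖ ^ j = ‖Q.eval₂ σ u‖ := by
      rw [hQ, eval₂_mul, eval₂_pow, eval₂_X, norm_mul, norm_pow, hun, inv_pow]
      field_simp
    rw [← hP, ← hC, ← hsum]
    have hT0 : 0 ≤ ‖σ ((PP F (α k) (e k)).eval t)‖ := norm_nonneg _
    calc ‖σ ((PP F (α k) (e k)).eval t)‖ *
          (‖σ (R.coeff j)‖ - 2 * (C * (N * H) ^ J) * (N * H) / ‖σ t‖)
        ≤ ‖σ ((PP F (α k) (e k)).eval t)‖ * ‖Q.eval₂ σ u‖ := mul_le_mul_of_nonneg_left h7 hT0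
      _ ≤ (2 * H * ‖σ t‖ ^ E) * ‖Q.eval₂ σ u‖ := mul_le_mul_of_nonneg_right hT (norm_nonneg _)
      _ = 2 * H * ‖σ t‖ ^ j * (‖σ t‖ ^ E * ‖R.eval₂ σ u‖) := by rw [← h10]; ring

end

/-- **Relations between products of powers of integers with small digits come from identities**, if
the first digits are at most one in absolute value. -/
theorem top_identity {κ ι : Type*} [Fintype κ] [Fintype ι] [Nonempty ι] {F : κ → ℤ[X]}
    (hF : ∀ i, F i ≠ 0) {D : ℕ} (hD : ∑ i, (F i).natDegree ≤ D) {H : ℝ} (hH : 1 ≤ H)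
    (hlc : ∀ i, |((F i).leadingCoeff : ℝ)| ≤ 1) (hFH : ∀ i j, |((F i).coeff j : ℝ)| ≤ H)
    {α : ι → ℤ} (hα : ∀ k, α k ≠ 0) (hαH : ∀ k, |(α k : ℝ)| ≤ H) (e : ι → κ → ℕ) {N : ℕ}
    (hN : 1 ≤ N) (heN : ∀ k, ∑ i, e k i ≤ N) {t : ℤ}
    (hsize : 4 * (Fintype.card ι * H * (N * H) ^ (JJ (D + 1) (Fintype.card ι))) * (N * H) ≤
      |(t : ℝ)|)
    (hsum : ∑ k, (PP F (α k) (e k)).eval t = 0)
    (hval : ∀ k, (PP F (α k) (e k)).eval t ≠ 0)
    (hno : ∀ S : Finset ι, S.Nonempty → S ≠ Finset.univ → ∑ k ∈ S, (PP F (α k) (e k)).eval t ≠ 0) :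
    ∑ k, PP F (α k) (e k) = 0 := by
  classical
  by_contra hne
  obtain ⟨J, hJ⟩ : ∃ J, J = JJ (D + 1) (Fintype.card ι) := ⟨_, rfl⟩
  rw [← hJ] at hsize
  have hN1 : (1 : ℝ) ≤ N := by exact_mod_cast hN
  have hNH : 1 ≤ (N : ℝ) * H := by nlinarith
  have hcard : (1 : ℝ) ≤ Fintype.card ι := by exact_mod_cast Fintype.card_pos
  obtain ⟨Z, hZ⟩ : ∃ Z : ℝ, Z = Fintype.card ι * H * (N * H) ^ J := ⟨_, rfl⟩
  rw [← hZ] at hsize
  have hZ1 : 1 ≤ Z := by
    rw [hZ]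
    exact one_le_mul_of_one_le_of_one_le (one_le_mul_of_one_le_of_one_le hcard hH)
      (one_le_pow₀ hNH)
  obtain ⟨j, r, -, hr0, -, h⟩ := top_end (s := fun x : ℤ => |(x : ℝ)|) sizeZ hF hD hH hlc hFH hα hαH e
    hN heN (fun L hL hL0 => by
      by_cases hLu : L = Finset.univ
      · rw [hLu] at hL0
        exact hne hL0
      · apply hno L hL hLu
        rw [← eval_finset_sum, hL0, eval_zero]) (J := J) (by rw [hJ]) t
  have hnorm : ∀ x : ℤ, ‖(Int.castRingHom ℂ) x‖ = |(x : ℝ)| := by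
    intro x
    rw [eq_intCast, Complex.norm_intCast]
  obtain ⟨k0⟩ := ‹Nonempty ι›
  have h1 := h (Int.castRingHom ℂ) (fun x => (hnorm x).le) (by
    rw [hnorm]
    nlinarith) k0
  rw [hnorm, hnorm, hnorm, hnorm, eval_finset_sum, hsum, ← hZ] at h1
  rw [Int.cast_zero, abs_zero, mul_zero] at h1
  have ht0 : 0 < |(t : ℝ)| := by nlinarith
  have h2 : (1 : ℝ) ≤ |(r : ℝ)| := by exact_mod_cast Int.one_le_abs hr0
  have h3 : 2 * Z * (N * H) / |(t : ℝ)| ≤ 1 / 2 := by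
    rw [div_le_iff₀ ht0]
    linarith
  have h4 : 0 < |(((PP F (α k0) (e k0)).eval t : ℤ) : ℝ)| := by
    rw [abs_pos]
    exact_mod_cast hval k0
  nlinarith

end Pool.Agent.Q103.SP
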