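import Mathlib
import Pool.Agent.Q103.SP.Bound
import Pool.Agent.Q103.SP.Gcd
import Pool.Agent.Q103.SP.MS
import Pool.Agent.Q103.SP.TopEnd
import Pool.Agent.Q103.SD.NFChoose

/-!
# `a₀ X + a₁ Y = a₂ Z` in products of integers from three short intervals
-/

set_option autoImplicit false

namespace Pool.Agent.Q103.SP

open Polynomial Finset Filter Pool.Agent.Q103.SD

/-- a product of integers from a short interval -/
theorem list_prod {b s K : ℕ} (hsK : s ≤ K) {l : List ℕ} (hl : ∀ x ∈ l, b ≤ x ∧ x ≤ b + s) :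
    l.prod = ∏ i : Fin (K + 1), (b + (i : ℕ)) ^ l.count (b + (i : ℕ)) ∧
      ∑ i : Fin (K + 1), l.count (b + (i : ℕ)) = l.length ∧
      (Finset.univ.filter fun i : Fin (K + 1) => l.count (b + (i : ℕ)) ≠ 0).card ≤ s + 1 := by
  classical
  have hinj : Function.Injective (fun i : Fin (K + 1) => b + (i : ℕ)) := by
    intro i j h
    apply Fin.ext
    simp only at h
    omega
  have hsub : l.toFinset ⊆ Finset.univ.image (fun i : Fin (K + 1) => b + (i : ℕ)) := by
    intro x hx
    rw [List.mem_toFinset] at hx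
    obtain ⟨h1, h2⟩ := hl x hx
    rw [Finset.mem_image]
    exact ⟨⟨x - b, by omega⟩, Finset.mem_univ _, by simp only; omega⟩
  refine ⟨?_, ?_, ?_⟩
  · rw [Finset.prod_list_count, Finset.prod_subset hsub, Finset.prod_image fun i _ j _ h => hinj h]
    intro x _ hx
    rw [List.mem_toFinset] at hx
    rw [List.count_eq_zero_of_not_mem hx, pow_zero]
  · rw [← List.sum_toFinset_count_eq_length l, Finset.sum_subset hsub,
      Finset.sum_image fun i _ j _ h => hinj h]
    intro x _ hx
    rw [List.mem_toFinset] at hx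
    rw [List.count_eq_zero_of_not_mem hx]
  · have h1 : (Finset.univ.filter fun i : Fin (K + 1) => l.count (b + (i : ℕ)) ≠ 0).image
        (fun i : Fin (K + 1) => (i : ℕ)) ⊆ Finset.range (s + 1) := by
      intro i hi
      rw [Finset.mem_image] at hi
      obtain ⟨j, hj, rfl⟩ := hi
      have h2 := (Finset.mem_filter.mp hj).2
      have h3 : b + (j : ℕ) ∈ l := by
        by_contra h4
        exact h2 (List.count_eq_zero_of_not_mem h4)
      have h4 := (hl _ h3).2
      rw [Finset.mem_range]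
      omega
    have h2 := Finset.card_le_card h1
    rw [Finset.card_image_of_injective _ Fin.val_injective, Finset.card_range] at h2
    exact h2

/-- the situation: `b w` is the value at `t` of the monic polynomial `f w` with small coefficients,
and the list `l w` consists of integers of `[b w, b w + s w]` -/
structure Sit (K : ℕ) (H : ℝ) (t : ℕ) (f : Fin 3 → ℤ[X]) (b s : Fin 3 → ℕ) (l : Fin 3 → List ℕ) :
    Prop where
  monic : ∀ w, (f w).Monic
  pos : ∀ w, 0 < (f w).natDegree
  deg : ∀ w, (f w).natDegree ≤ K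
  coeff : ∀ w j, |((f w).coeff j : ℝ)| ≤ H
  base : ∀ w, (f w).eval (t : ℤ) = b w
  spread : ∀ w, s w ≤ K
  ne : ∀ w, l w ≠ []
  mem : ∀ w, ∀ x ∈ l w, b w ≤ x ∧ x ≤ b w + s w

/-- the bases as polynomials -/
noncomputable def FF (K : ℕ) (f : Fin 3 → ℤ[X]) (x : Fin 3 × Fin (K + 1)) : ℤ[X] :=
  f x.1 + C ((x.2 : ℕ) : ℤ)

/-- the exponents -/
def EE (K : ℕ) (b : Fin 3 → ℕ) (l : Fin 3 → List ℕ) (k : Fin 3) (x : Fin 3 × Fin (K + 1)) : ℕ :=
  if x.1 = k then (l k).count (b k + (x.2 : ℕ)) else 0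

section

variable {K : ℕ} {H : ℝ} {t : ℕ} {f : Fin 3 → ℤ[X]} {b s : Fin 3 → ℕ} {l : Fin 3 → List ℕ}

theorem natDegree_FF (_h : Sit K H t f b s l) (x : Fin 3 × Fin (K + 1)) :
    (FF K f x).natDegree = (f x.1).natDegree := by
  unfold FF
  exact natDegree_add_C

theorem monic_FF (h : Sit K H t f b s l) (x : Fin 3 × Fin (K + 1)) : (FF K f x).Monic := by
  unfold FF
  apply (h.monic x.1).add_of_left
  refine lt_of_le_of_lt degree_C_le ?_
  rw [← natDegree_pos_iff_degree_pos]
  exact h.pos x.1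

theorem coeff_FF (h : Sit K H t f b s l) (x : Fin 3 × Fin (K + 1)) (j : ℕ) :
    |((FF K f x).coeff j : ℝ)| ≤ H + K := by
  unfold FF
  rw [coeff_add]
  push_cast
  have h1 := h.coeff x.1 j
  have h2 : |((C ((x.2 : ℕ) : ℤ) : ℤ[X]).coeff j : ℝ)| ≤ K := by
    rw [coeff_C]
    split_ifs
    · have h3 : ((x.2 : ℕ) : ℝ) ≤ K := by exact_mod_cast Nat.lt_succ_iff.mp x.2.2
      push_cast
      rw [abs_of_nonneg (Nat.cast_nonneg _)]
      exact h3
    · simp
  exact (abs_add_le _ _).trans (by linarith)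

theorem eval_FF (h : Sit K H t f b s l) (x : Fin 3 × Fin (K + 1)) :
    (FF K f x).eval (t : ℤ) = ((b x.1 + (x.2 : ℕ) : ℕ) : ℤ) := by
  unfold FF
  rw [eval_add, eval_C, h.base x.1]
  push_cast
  rfl

/-- a product over all pairs with exponents `EE` is the product over one row -/
theorem prod_EE {M : Type*} [CommMonoid M] (g : Fin 3 × Fin (K + 1) → M) (k : Fin 3) :
    ∏ x, g x ^ EE K b l k x = ∏ i : Fin (K + 1), g (k, i) ^ (l k).count (b k + (i : ℕ)) := by
  rw [Fintype.prod_prod_type, Finset.prod_eq_single k]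
  · apply Finset.prod_congr rfl
    intro i _
    unfold EE
    rw [if_pos rfl]
  · intro w _ hw
    apply Finset.prod_eq_one
    intro i _
    unfold EE
    rw [if_neg hw, pow_zero]
  · intro h
    exact absurd (Finset.mem_univ _) h

theorem prod_eval (h : Sit K H t f b s l) (k : Fin 3) :
    (∏ x, FF K f x ^ EE K b l k x).eval (t : ℤ) = (((l k).prod : ℕ) : ℤ) := by
  rw [prod_EE, (list_prod (h.spread k) (h.mem k)).1, eval_prod]
  push_cast
  apply Finset.prod_congr rfl
  intro i _
  rw [eval_pow, eval_FF h]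
  push_cast
  rfl

theorem sum_EE (h : Sit K H t f b s l) (k : Fin 3) :
    ∑ x, EE K b l k x * (FF K f x).natDegree = (l k).length * (f k).natDegree := by
  rw [Fintype.sum_prod_type, Finset.sum_eq_single k]
  · rw [← (list_prod (h.spread k) (h.mem k)).2.1, Finset.sum_mul]
    apply Finset.sum_congr rfl
    intro i _
    unfold EE
    rw [if_pos rfl, natDegree_FF h]
  · intro w _ hw
    apply Finset.sum_eq_zero
    intro i _
    unfold EE
    rw [if_neg hw, zero_mul]
  · intro h
    exact absurd (Finset.mem_univ _) h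

/-- the degree of the radical -/
theorem rad_EE (h : Sit K H t f b s l) (k : Fin 3) {a : ℚ} (ha : a ≠ 0) :
    (UniqueFactorizationMonoid.radical
      (C a * (∏ x, FF K f x ^ EE K b l k x).map (Int.castRingHom ℚ))).natDegree ≤
      (s k + 1) * (f k).natDegree := by
  classical
  obtain ⟨U, hU⟩ : ∃ U : Finset (Fin (K + 1)),
      U = Finset.univ.filter fun i : Fin (K + 1) => (l k).count (b k + (i : ℕ)) ≠ 0 := ⟨_, rfl⟩
  have hcard : U.card ≤ s k + 1 := by rw [hU]; exact (list_prod (h.spread k) (h.mem k)).2.2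
  rw [UniqueFactorizationMonoid.radical_mul_of_isUnit_left
    (isUnit_C.mpr (isUnit_iff_ne_zero.mpr ha)), prod_EE]
  have hne : ∀ i : Fin (K + 1), (FF K f (k, i)).map (Int.castRingHom ℚ) ≠ 0 := fun i =>
    ((monic_FF h (k, i)).map _).ne_zero
  have h1 : UniqueFactorizationMonoid.radical
      ((∏ i : Fin (K + 1), FF K f (k, i) ^ (l k).count (b k + (i : ℕ))).map (Int.castRingHom ℚ)) ∣
      ∏ i ∈ U, (FF K f (k, i)).map (Int.castRingHom ℚ) := by
    rw [← UniqueFactorizationMonoid.exists_dvd_pow_iff_radical_dvd]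
    · refine ⟨∑ i : Fin (K + 1), (l k).count (b k + (i : ℕ)), ?_⟩
      rw [Polynomial.map_prod, ← Finset.prod_subset (Finset.subset_univ U), ← Finset.prod_pow]
      · apply Finset.prod_dvd_prod_of_dvd
        intro i _
        rw [Polynomial.map_pow]
        exact pow_dvd_pow _ (Finset.single_le_sum
          (f := fun i : Fin (K + 1) => (l k).count (b k + (i : ℕ)))
          (fun _ _ => Nat.zero_le _) (Finset.mem_univ i))
      · intro i _ hi
        rw [hU, Finset.mem_filter, not_and, not_not] at hi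
        rw [hi (Finset.mem_univ i), pow_zero, Polynomial.map_one]
    · rw [Polynomial.map_prod]
      exact Finset.prod_ne_zero_iff.mpr fun i _ => by
        rw [Polynomial.map_pow]
        exact pow_ne_zero _ (hne i)
  refine (natDegree_le_of_dvd h1 (Finset.prod_ne_zero_iff.mpr fun i _ => hne i)).trans ?_
  refine (natDegree_prod_le _ _).trans ?_
  calc ∑ i ∈ U, ((FF K f (k, i)).map (Int.castRingHom ℚ)).natDegree
      ≤ ∑ _i ∈ U, (f k).natDegree := by
        apply Finset.sum_le_sum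
        intro i _
        refine natDegree_map_le.trans ?_
        rw [natDegree_FF h]
    _ = U.card * (f k).natDegree := by rw [Finset.sum_const, smul_eq_mul]
    _ ≤ _ := Nat.mul_le_mul_right _ hcard

/-- **The polynomial identity gives the inequality.** -/
theorem of_identity (h : Sit K H t f b s l) (hH : 0 ≤ H) {a : Fin 3 → ℕ} (ha : ∀ w, 0 < a w)
    (hid : C (a 0 : ℤ) * (∏ x, FF K f x ^ EE K b l 0 x) + C (a 1 : ℤ) *
      (∏ x, FF K f x ^ EE K b l 1 x) = C (a 2 : ℤ) * (∏ x, FF K f x ^ EE K b l 2 x))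
    (ht : 2 * (H + K + 2) ≤ (t : ℝ)) {Q : ℝ} (hQ : Q < (t : ℝ) / 2)
    (hb : ∀ w, 0 < b w)
    (hgcd : ((Nat.gcd (l 0).prod (l 1).prod : ℕ) : ℝ) ≤
      Q * ((∏ q ∈ (Nat.gcd (l 0).prod (l 1).prod).primeFactors, q : ℕ) : ℝ)) :
    1 < ∑ w, ((s w : ℝ) + 1) / (l w).length := by
  classical
  obtain ⟨P, hP⟩ : ∃ P : Fin 3 → ℤ[X], ∀ k, P k = ∏ x, FF K f x ^ EE K b l k x := ⟨_, fun _ => rfl⟩
  have hPm : ∀ k, (P k).Monic := fun k => by
    rw [hP]
    exact monic_prod_of_monic _ _ fun x _ => (monic_FF h x).pow _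
  have hPdeg : ∀ k, (P k).natDegree = (l k).length * (f k).natDegree := by
    intro k
    rw [hP, natDegree_prod_of_monic _ _ fun x _ => (monic_FF h x).pow _, ← sum_EE h k]
    apply Finset.sum_congr rfl
    intro x _
    rw [(monic_FF h x).natDegree_pow]
  obtain ⟨R, hR⟩ : ∃ R : Fin 3 → ℚ[X], ∀ k, R k = C (a k : ℚ) * (P k).map (Int.castRingHom ℚ) :=
    ⟨_, fun _ => rfl⟩
  have haQ : ∀ k, (a k : ℚ) ≠ 0 := fun k => by exact_mod_cast (ha k).ne'
  have hR0 : ∀ k, R k ≠ 0 := fun k => by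
    rw [hR]
    exact mul_ne_zero (C_ne_zero.mpr (haQ k)) ((hPm k).map _).ne_zero
  have hRdeg : ∀ k, (R k).natDegree = (l k).length * (f k).natDegree := fun k => by
    rw [hR, natDegree_C_mul (haQ k), (hPm k).natDegree_map, hPdeg]
  have hRsum : R 0 + R 1 = R 2 := by
    have h1 := congrArg (Polynomial.map (Int.castRingHom ℚ)) hid
    rw [← hP, ← hP, ← hP, Polynomial.map_add, Polynomial.map_mul, Polynomial.map_mul,
      Polynomial.map_mul, map_C, map_C, map_C] at h1
    rw [hR, hR, hR]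
    simpa using h1
  have hlen : ∀ k, 0 < (l k).length := fun k => List.length_pos_of_ne_nil (h.ne k)
  have hRpos : ∀ k, 1 ≤ (R k).natDegree := fun k => by
    rw [hRdeg]
    exact Nat.mul_pos (hlen k) (h.pos k)
  have hsq : ∀ p : ℚ[X], Prime p → ¬ (p ^ 2 ∣ R 0 ∧ p ^ 2 ∣ R 1) := by
    intro p hp hpp
    have hunit : ∀ k, IsUnit (C (a k : ℚ)) := fun k =>
      isUnit_C.mpr (isUnit_iff_ne_zero.mpr (haQ k))
    rw [hR, hR, (hunit 0).dvd_mul_left, (hunit 1).dvd_mul_left, hP, hP] at hpp
    have hprod : ∀ k, (l k).prod ≠ 0 := fun k => by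
      rw [(list_prod (h.spread k) (h.mem k)).1]
      exact Finset.prod_ne_zero_iff.mpr fun i _ => pow_ne_zero _ (by
        have := hb k
        omega)
    refine no_square (F := FF K f) (monic_FF h) (by positivity) (coeff_FF h) (t := (t : ℤ))
      (by push_cast; exact ht) (by push_cast; exact hQ) (EE K b l 0) (EE K b l 1)
      (g := Nat.gcd (l 0).prod (l 1).prod)
      (Nat.gcd_pos_of_pos_left _ (Nat.pos_of_ne_zero (hprod 0))).ne' ?_ hgcd p hp hpp
    rw [prod_eval h, prod_eval h]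
    rfl
  have hmason := mason_sq (R 0).natDegree le_rfl (hR0 0) (hR0 1) (hR0 2) hRsum hsq
    ((hRpos 0).trans (le_max_left _ _))
  have hrad : ∀ k, (UniqueFactorizationMonoid.radical (R k)).natDegree ≤
      (s k + 1) * (f k).natDegree := fun k => by
    rw [hR, hP]
    exact rad_EE h k (haQ k)
  obtain ⟨m, hm⟩ : ∃ m, m = max (R 0).natDegree (max (R 1).natDegree (R 2).natDegree) := ⟨_, rfl⟩
  rw [← hm] at hmason
  have hkm : ∀ k : Fin 3, (l k).length * (f k).natDegree ≤ m := by
    intro k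
    rw [← hRdeg, hm]
    fin_cases k
    · exact le_max_left _ _
    · exact (le_max_left _ _).trans (le_max_right _ _)
    · exact (le_max_right _ _).trans (le_max_right _ _)
  have hm0 : 0 < m := lt_of_lt_of_le (Nat.mul_pos (hlen 0) (h.pos 0)) (hkm 0)
  have hsum : m + 1 ≤ ∑ k : Fin 3, (s k + 1) * (f k).natDegree := by
    rw [Fin.sum_univ_three]
    have := hrad 0
    have := hrad 1
    have := hrad 2
    omega
  have hm0' : (0 : ℝ) < m := by exact_mod_cast hm0
  have hterm : ∀ k, (((s k + 1) * (f k).natDegree : ℕ) : ℝ) / m ≤ ((s k : ℝ) + 1) / (l k).length := by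
    intro k
    have h1 : (0 : ℝ) < (l k).length := by exact_mod_cast hlen k
    have h2 : (((l k).length * (f k).natDegree : ℕ) : ℝ) ≤ m := by exact_mod_cast hkm k
    rw [div_le_div_iff₀ hm0' h1]
    push_cast at h2 ⊢
    have h3 : (0 : ℝ) ≤ (s k : ℝ) + 1 := by positivity
    nlinarith
  calc (1 : ℝ) < ((m + 1 : ℕ) : ℝ) / m := by
        rw [one_lt_div hm0']
        push_cast
        linarith
    _ ≤ ((∑ k : Fin 3, (s k + 1) * (f k).natDegree : ℕ) : ℝ) / m := by
        apply div_le_div_of_nonneg_right _ hm0'.le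
        exact_mod_cast hsum
    _ = ∑ k : Fin 3, (((s k + 1) * (f k).natDegree : ℕ) : ℝ) / m := by
        rw [Nat.cast_sum, Finset.sum_div]
    _ ≤ _ := Finset.sum_le_sum fun k _ => hterm k

end

end Pool.Agent.Q103.SP
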