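import Mathlib
import Pool.Agent.Q103.SP.Main
import Pool.Agent.Q103.SD.NFMain

/-!
# `a₀ X + a₁ Y = a₂ Z` in products of small spread whose bases have small digits in a common base
-/

set_option autoImplicit false

namespace Pool.Agent.Q103.SP

open Polynomial Finset Filter Pool.Agent.Q103.SD

/-- the values of the bases -/
theorem base_size {K : ℕ} {H : ℝ} {t : ℕ} {f : Fin 3 → ℤ[X]} {b s : Fin 3 → ℕ}
    {l : Fin 3 → List ℕ} (h : Sit K H t f b s l) (ht : 2 ≤ t) (hH : 0 ≤ H)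
    (hHt : 4 * (H + K + 1) ≤ t) (w : Fin 3) : 0 < b w ∧ b w + K ≤ t ^ (K + 1) := by
  have htR : (2 : ℝ) ≤ t := by exact_mod_cast ht
  have hK0 : (0 : ℝ) ≤ K := Nat.cast_nonneg _
  have h1 := value_size (P := f w) (B := H) (t := t) ht hH (by linarith) (h.coeff w)
    (h.monic w).ne_zero
  rw [h.base w] at h1
  obtain ⟨h2, h3⟩ := h1
  have h4 : |(((b w : ℕ) : ℤ) : ℝ)| = b w := by
    push_cast
    exact abs_of_nonneg (Nat.cast_nonneg _)
  rw [h4] at h2 h3
  constructor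
  · have h5 : (0 : ℝ) < (b w : ℝ) := lt_of_lt_of_le (by positivity) h2
    exact_mod_cast h5
  · have h5 : (t : ℝ) ^ (f w).natDegree ≤ (t : ℝ) ^ K :=
      pow_le_pow_right₀ (by linarith) (h.deg w)
    have h6 : (1 : ℝ) ≤ (t : ℝ) ^ K := one_le_pow₀ (by linarith)
    have h7 : (b w : ℝ) + K ≤ (t : ℝ) ^ (K + 1) := by
      calc (b w : ℝ) + K ≤ (H + 1 / 2) * (t : ℝ) ^ K + K * (t : ℝ) ^ K := by
            have e1 : (H + 1 / 2) * (t : ℝ) ^ (f w).natDegree ≤ (H + 1 / 2) * (t : ℝ) ^ K :=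
              mul_le_mul_of_nonneg_left h5 (by linarith)
            nlinarith
        _ = (H + 1 / 2 + K) * (t : ℝ) ^ K := by ring
        _ ≤ t * (t : ℝ) ^ K := mul_le_mul_of_nonneg_right (by linarith) (by positivity)
        _ = _ := by ring
    exact_mod_cast h7

/-- **No solutions.** -/
theorem main (K : ℕ) : ∃ δ : ℝ, 0 < δ ∧ ∃ t₀ : ℕ, ∀ t : ℕ, t₀ ≤ t →
    ∀ (f : Fin 3 → ℤ[X]) (b s : Fin 3 → ℕ) (l : Fin 3 → List ℕ), Sit K ((t : ℝ) ^ δ) t f b s l →
    (∀ w, ∀ x ∈ l w, (t : ℝ) ^ δ < (l w).count x → ∃ p : ℕ, p.Prime ∧ p ∣ x ∧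
      (p : ℝ) ≤ (t : ℝ) ^ δ) →
    ∀ a : Fin 3 → ℕ, (∀ w, 0 < a w) → (∀ w, (a w : ℝ) ≤ (t : ℝ) ^ δ) →
    a 0 * (l 0).prod + a 1 * (l 1).prod = a 2 * (l 2).prod →
    ((Nat.gcd (l 0).prod (l 1).prod : ℕ) : ℝ) ≤
      (t : ℝ) ^ δ * ((∏ q ∈ (Nat.gcd (l 0).prod (l 1).prod).primeFactors, q : ℕ) : ℝ) →
    1 < ∑ w, ((s w : ℝ) + 1) / (l w).length := by
  classical
  obtain ⟨C, κ, hcong⟩ := congruent' (Fin 3 ⊕ (Fin 3 × Fin (K + 1)))
  obtain ⟨D, hD⟩ : ∃ D, D = 3 * (K + 1) * K := ⟨_, rfl⟩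
  obtain ⟨J, hJ⟩ : ∃ J, J = JJ (D + 1) 3 := ⟨_, rfl⟩
  obtain ⟨δa, hδa, hsmall⟩ := NF.exists_small (12 * ((K : ℝ) + 1) ^ (J + 1)) (2 * J + 3) one_pos
  obtain ⟨δ₁, hδ₁⟩ : ∃ δ₁, δ₁ = min δa (1 / 4) := ⟨_, rfl⟩
  have hδ₁0 : 0 < δ₁ := by rw [hδ₁]; exact lt_min hδa (by norm_num)
  have hδ₁4 : δ₁ ≤ 1 / 4 := by rw [hδ₁]; exact min_le_right _ _
  obtain ⟨δ', hδ'0, t₁, hlarge⟩ := no_large C κ K hδ₁0
  obtain ⟨δ, hδ⟩ : ∃ δ, δ = min (δ₁ / 2) δ' := ⟨_, rfl⟩
  have hδ0 : 0 < δ := by rw [hδ]; exact lt_min (by positivity) hδ'0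
  have hδδ₁ : δ ≤ δ₁ / 2 := by rw [hδ]; exact min_le_left _ _
  have hδδ' : δ ≤ δ' := by rw [hδ]; exact min_le_right _ _
  have hev1 := (tendsto_natCast_atTop_atTop (R := ℝ)).eventually
    (hsmall δ₁ hδ₁0 (by rw [hδ₁]; exact min_le_left _ _))
  have hev2 : ∀ᶠ t : ℕ in atTop, (K : ℝ) + 1 ≤ (t : ℝ) ^ (δ₁ / 2) :=
    ((tendsto_rpow_atTop (by positivity)).comp
      (tendsto_natCast_atTop_atTop (R := ℝ))).eventually_ge_atTop _
  obtain ⟨t₂, ht₂⟩ := eventually_atTop.mp (hev1.and hev2)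
  refine ⟨δ, hδ0, max (max t₁ t₂) 4096, ?_⟩
  intro t ht f b s l h hstar a ha haH heq hgcd
  have htt₁ : t₁ ≤ t := ((le_max_left _ _).trans (le_max_left _ _)).trans ht
  have htt₂ : t₂ ≤ t := ((le_max_right _ _).trans (le_max_left _ _)).trans ht
  have ht64 : 4096 ≤ t := (le_max_right _ _).trans ht
  obtain ⟨g1, g2⟩ := ht₂ t htt₂
  rw [Real.rpow_one] at g1
  have htR : (4096 : ℝ) ≤ t := by exact_mod_cast ht64
  have ht0 : (0 : ℝ) < t := by linarith
  obtain ⟨r, hr⟩ : ∃ r : ℝ, r = (t : ℝ) ^ (1 / 2 : ℝ) := ⟨_, rfl⟩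
  have hrr : r * r = t := by
    rw [hr, ← Real.rpow_add ht0]
    norm_num
  have hr8 : 64 ≤ r := by
    have hr0 : 0 ≤ r := by rw [hr]; positivity
    nlinarith
  obtain ⟨H, hH⟩ : ∃ H : ℝ, H = (t : ℝ) ^ δ := ⟨_, rfl⟩
  obtain ⟨H₁, hH₁⟩ : ∃ H₁ : ℝ, H₁ = (t : ℝ) ^ δ₁ := ⟨_, rfl⟩
  have hH1 : 1 ≤ H := by rw [hH]; exact Real.one_le_rpow (by linarith) hδ0.le
  have hH₁r : H₁ ≤ r := by
    rw [hH₁, hr]
    exact Real.rpow_le_rpow_of_exponent_le (by linarith) (by linarith)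
  have hHK : H + K ≤ H₁ := by
    obtain ⟨z, hz⟩ : ∃ z : ℝ, z = (t : ℝ) ^ (δ₁ / 2) := ⟨_, rfl⟩
    have hz1 : H ≤ z := by
      rw [hH, hz]
      exact Real.rpow_le_rpow_of_exponent_le (by linarith) hδδ₁
    have hzz : z * z = H₁ := by
      rw [hz, hH₁, ← Real.rpow_add ht0]
      congr 1
      ring
    rw [← hz] at g2
    have hK0 : (0 : ℝ) ≤ K := Nat.cast_nonneg _
    nlinarith
  have hK0 : (0 : ℝ) ≤ K := Nat.cast_nonneg _
  have hHH₁ : H ≤ H₁ := by linarith
  have hH₁1 : 1 ≤ H₁ := by linarith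
  rw [← hH] at h hstar haH hgcd
  rw [← hH₁] at g1
  have hsize4 : 4 * (H + K + 1) ≤ t := by nlinarith
  have hbs := base_size h (by omega) (by linarith) hsize4
  have hlp := fun w => list_prod (h.spread w) (h.mem w)
  have hWpos : ∀ w, 0 < (l w).prod := fun w => by
    rw [(hlp w).1]
    exact Finset.prod_pos fun i _ => pow_pos (by have := (hbs w).1; omega) _
  obtain ⟨L, hL⟩ : ∃ L, L = Nat.log 2 t := ⟨_, rfl⟩
  have htL : t < 2 ^ (L + 1) := by rw [hL]; exact Nat.lt_pow_succ_log_self (by norm_num) t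
  have hHt : H < t := by nlinarith
  have hHL : H < 2 ^ (L + 1) := by
    have : (t : ℝ) < 2 ^ (L + 1) := by exact_mod_cast htL
    linarith
  have haL : ∀ w, a w < 2 ^ (L + 1) := fun w => by
    have h1 : (a w : ℝ) < 2 ^ (L + 1) := lt_of_le_of_lt (haH w) hHL
    exact_mod_cast h1
  -- the largest exponent
  obtain ⟨m, -, hm⟩ := Finset.exists_max_image (Finset.univ : Finset (Fin 3 × Fin (K + 1)))
    (fun x => (l x.1).count (b x.1 + (x.2 : ℕ))) ⟨(0, 0), Finset.mem_univ _⟩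
  obtain ⟨N, hN⟩ : ∃ N, N = (l m.1).count (b m.1 + (m.2 : ℕ)) := ⟨_, rfl⟩
  have hNmax : ∀ w (i : Fin (K + 1)), (l w).count (b w + (i : ℕ)) ≤ N := fun w i => by
    rw [hN]
    exact hm (w, i) (Finset.mem_univ _)
  have hN1 : 1 ≤ N := by
    by_contra h0
    have h1 : ∑ i : Fin (K + 1), (l 0).count (b 0 + (i : ℕ)) = 0 :=
      Finset.sum_eq_zero fun i _ => by
        have := hNmax 0 i
        omega
    rw [(hlp 0).2.1] at h1
    exact h.ne 0 (List.length_eq_zero_iff.mp h1)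
  have hNsmall : (N : ℝ) ≤ H₁ := by
    by_contra hcon
    push Not at hcon
    have hmem : b m.1 + (m.2 : ℕ) ∈ l m.1 := by
      by_contra h0
      rw [List.count_eq_zero_of_not_mem h0] at hN
      omega
    obtain ⟨p, hp, hpx, hpH⟩ := hstar m.1 _ hmem (by rw [← hN]; linarith)
    have hpN : p ^ N ∣ (l m.1).prod := by
      refine (pow_dvd_pow_of_dvd hpx N).trans ?_
      rw [(hlp m.1).1, hN]
      exact Finset.dvd_prod_of_mem (fun i : Fin (K + 1) =>
        (b m.1 + (i : ℕ)) ^ (l m.1).count (b m.1 + (i : ℕ))) (Finset.mem_univ m.2)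
    obtain ⟨S, hS⟩ : ∃ S, S = p + (K + 1) * (Nat.log 2 t + 1) + Nat.log 2 N + 1 := ⟨_, rfl⟩
    have hSL : (K + 1) * (L + 1) ≤ S := by rw [hS, ← hL]; omega
    have hSL1 : L + 1 ≤ S := by
      have : L + 1 ≤ (K + 1) * (L + 1) := Nat.le_mul_of_pos_left _ (by omega)
      omega
    have h2S : ∀ x, x ≤ 2 ^ (L + 1) → x ≤ 2 ^ S := fun x hx =>
      hx.trans (Nat.pow_le_pow_right (by norm_num) hSL1)
    have hNS : N ≤ 2 ^ S := by
      have h1 : N < 2 ^ (Nat.log 2 N + 1) := Nat.lt_pow_succ_log_self (by norm_num) N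
      exact h1.le.trans (Nat.pow_le_pow_right (by norm_num) (by rw [hS]; omega))
    have hbound := exponent_bound (τ := Fin 3 ⊕ (Fin 3 × Fin (K + 1))) hcong hp (S := S)
      (by rw [hS]; omega) (by rw [hS]; omega)
      (Q := Sum.elim a fun x => b x.1 + (x.2 : ℕ))
      (by
        rintro (w | x)
        · exact ha w
        · have := (hbs x.1).1
          simp only [Sum.elim_inr]
          omega)
      (by
        rintro (w | x)
        · exact h2S _ (haL w).le
        · simp only [Sum.elim_inr]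
          have h1 := (hbs x.1).2
          have h2 := x.2.2
          have h3 : t ^ (K + 1) ≤ (2 ^ (L + 1)) ^ (K + 1) := Nat.pow_le_pow_left htL.le _
          have h4 : (2 ^ (L + 1)) ^ (K + 1) = 2 ^ ((K + 1) * (L + 1)) := by
            rw [← pow_mul, mul_comm]
          have h5 : 2 ^ ((K + 1) * (L + 1)) ≤ 2 ^ S := Nat.pow_le_pow_right (by norm_num) hSL
          omega)
      (c := fun u => Sum.elim (fun w => if w = u then 1 else 0) (EE K b l u))
      (by
        rintro u (w | x)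
        · simp only [Sum.elim_inl]
          split_ifs
          · exact Nat.one_le_two_pow
          · exact Nat.zero_le _
        · simp only [Sum.elim_inr]
          unfold EE
          split_ifs with h1
          · exact (hNmax u x.2).trans hNS
          · exact Nat.zero_le _)
      (a := a) (W := fun w => (l w).prod) ha haL hWpos
      (by
        intro u
        rw [Fintype.prod_sum_type]
        simp only [Sum.elim_inl, Sum.elim_inr]
        rw [prod_EE (K := K) (b := b) (l := l) (fun x : Fin 3 × Fin (K + 1) => b x.1 + (x.2 : ℕ)) u,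
          (hlp u).1]
        congr 1
        rw [Finset.prod_eq_single u]
        · rw [if_pos rfl, pow_one]
        · intro w _ hw
          rw [if_neg hw, pow_zero]
        · intro h0
          exact absurd (Finset.mem_univ _) h0)
      heq hHL hgcd hpN
    have hl := hlarge t htt₁ p N (hpH.trans (by
      rw [hH]
      exact Real.rpow_le_rpow_of_exponent_le (by linarith) hδδ')) (by rw [← hH₁]; exact hcon)
    rw [← hS, ← hL] at hl
    omega
  -- the identity
  obtain ⟨α, hα⟩ : ∃ α : Fin 3 → ℤ, α = ![(a 0 : ℤ), (a 1 : ℤ), -(a 2 : ℤ)] := ⟨_, rfl⟩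
  have hα0 : α 0 = a 0 := by rw [hα]; rfl
  have hα1 : α 1 = a 1 := by rw [hα]; rfl
  have hα2 : α 2 = -(a 2 : ℤ) := by rw [hα]; rfl
  have hαa : ∀ k, |α k| = a k := by
    intro k
    fin_cases k
    · show |α 0| = _
      rw [hα0]; exact abs_of_nonneg (Int.natCast_nonneg _)
    · show |α 1| = _
      rw [hα1]; exact abs_of_nonneg (Int.natCast_nonneg _)
    · show |α 2| = _
      rw [hα2, abs_neg]; exact abs_of_nonneg (Int.natCast_nonneg _)
  have hαne : ∀ k, α k ≠ 0 := fun k h0 => by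
    have h1 := hαa k
    rw [h0, abs_zero] at h1
    have := ha k
    omega
  have hvalk : ∀ k, (PP (FF K f) (α k) (EE K b l k)).eval (t : ℤ) = α k * ((l k).prod : ℕ) := by
    intro k
    unfold PP
    rw [eval_mul, eval_C, prod_eval h]
  have hval0 : ∀ k, (PP (FF K f) (α k) (EE K b l k)).eval (t : ℤ) ≠ 0 := fun k => by
    rw [hvalk]
    exact mul_ne_zero (hαne k) (by exact_mod_cast (hWpos k).ne')
  have hsum0 : ∑ k, (PP (FF K f) (α k) (EE K b l k)).eval (t : ℤ) = 0 := by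
    rw [Fin.sum_univ_three, hvalk, hvalk, hvalk, hα0, hα1, hα2]
    have h1 : ((a 0 * (l 0).prod + a 1 * (l 1).prod : ℕ) : ℤ) = ((a 2 * (l 2).prod : ℕ) : ℤ) := by
      rw [heq]
    push_cast at h1 ⊢
    linear_combination h1
  have hid := top_identity (F := FF K f) (fun x => (monic_FF h x).ne_zero) (D := D) (by
      rw [hD, Fintype.sum_prod_type]
      calc ∑ w : Fin 3, ∑ i : Fin (K + 1), (FF K f (w, i)).natDegree
          ≤ ∑ _w : Fin 3, ∑ _i : Fin (K + 1), K := by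
            apply Finset.sum_le_sum
            intro w _
            apply Finset.sum_le_sum
            intro i _
            rw [natDegree_FF h]
            exact h.deg w
        _ = 3 * (K + 1) * K := by simp; ring) (H := H₁) hH₁1
    (fun x => by rw [(monic_FF h x).leadingCoeff]; norm_num)
    (fun x j => (coeff_FF h x j).trans hHK) (α := α) hαne
    (fun k => by
      have h1 : |(α k : ℝ)| = a k := by exact_mod_cast hαa k
      rw [h1]
      exact (haH k).trans hHH₁)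
    (EE K b l) (N := (K + 1) * N) (Nat.mul_pos (by omega) hN1)
    (fun k => by
      rw [Fintype.sum_prod_type, Finset.sum_eq_single k]
      · calc ∑ i : Fin (K + 1), EE K b l k (k, i) ≤ ∑ _i : Fin (K + 1), N := by
              apply Finset.sum_le_sum
              intro i _
              unfold EE
              rw [if_pos rfl]
              exact hNmax k i
          _ = (K + 1) * N := by simp
      · intro w _ hw
        apply Finset.sum_eq_zero
        intro i _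
        unfold EE
        rw [if_neg hw]
      · intro h0
        exact absurd (Finset.mem_univ _) h0)
    (t := (t : ℤ)) (by
      have hc3 : Fintype.card (Fin 3) = 3 := Fintype.card_fin 3
      rw [hc3, ← hJ]
      push_cast
      rw [abs_of_nonneg ht0.le]
      refine le_trans ?_ g1
      have h1 : ((K : ℝ) + 1) * N * H₁ ≤ (K + 1) * (H₁ * H₁) := by
        rw [mul_assoc]
        apply mul_le_mul_of_nonneg_left _ (by linarith)
        exact mul_le_mul_of_nonneg_right hNsmall (by linarith)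
      have h2 : (((K : ℝ) + 1) * N * H₁) ^ (J + 1) ≤ ((K + 1) * (H₁ * H₁)) ^ (J + 1) :=
        pow_le_pow_left₀ (by positivity) h1 _
      calc 4 * (3 * H₁ * (((K : ℝ) + 1) * N * H₁) ^ J) * (((K : ℝ) + 1) * N * H₁)
          = 12 * H₁ * (((K : ℝ) + 1) * N * H₁) ^ (J + 1) := by ring
        _ ≤ 12 * H₁ * ((K + 1) * (H₁ * H₁)) ^ (J + 1) :=
            mul_le_mul_of_nonneg_left h2 (by linarith)
        _ = 12 * ((K : ℝ) + 1) ^ (J + 1) * H₁ ^ (2 * J + 3) := by
            rw [mul_pow]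
            ring)
    hsum0 hval0
    (fun S' h1 h2 => NF.no_subsum hval0 hsum0 S' h1 h2)
  refine of_identity h (by linarith) ha ?_ (by nlinarith) (Q := H) (by nlinarith)
    (fun w => (hbs w).1) hgcd
  rw [Fin.sum_univ_three, hα0, hα1, hα2] at hid
  unfold PP at hid
  rw [C_neg, neg_mul] at hid
  linear_combination hid

end Pool.Agent.Q103.SP
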