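import Mathlib
import Pool.Agent.Q103.SP.Bound

/-!
# Finiteness of the solutions of `a₀ X + a₁ Y = a₂ Z` without large prime factors
-/

set_option autoImplicit false

namespace Pool.Agent.Q103.SP

open Finset Filter

theorem smooth_eq {W T : ℕ} (hW : 0 < W) (hT : ∀ p : ℕ, p.Prime → p ∣ W → p ≤ T) :
    W = ∏ i : Fin (T + 1), (if (i : ℕ) = 0 then 1 else (i : ℕ)) ^ W.factorization i := by
  classical
  rw [Fin.prod_univ_eq_prod_range
    (fun i => (if i = 0 then 1 else i) ^ W.factorization i) (T + 1)]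
  have h1 : ∏ i ∈ Finset.range (T + 1), (if i = 0 then 1 else i) ^ W.factorization i =
      ∏ i ∈ Finset.range (T + 1), i ^ W.factorization i := by
    apply Finset.prod_congr rfl
    intro i _
    by_cases h0 : i = 0
    · rw [h0, Nat.factorization_zero_right]
      simp
    · rw [if_neg h0]
  rw [h1]
  have h2 := Nat.prod_factorization_pow_eq_self hW.ne'
  rw [Finsupp.prod_of_support_subset (s := Finset.range (T + 1))] at h2
  · exact h2.symm
  · intro p hp
    rw [Nat.support_factorization, Nat.mem_primeFactors] at hp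
    rw [Finset.mem_range]
    have := hT p hp.1 hp.2.1
    omega
  · intro i _
    exact pow_zero _

/-- **Mahler's theorem**: finitely many solutions without prime factors larger than `T`. -/
theorem smooth_finite (T : ℕ) (a : Fin 3 → ℕ) (ha : ∀ w, 0 < a w) (G : ℝ) :
    {W : Fin 3 → ℕ | (∀ w, 0 < W w ∧ ∀ p : ℕ, p.Prime → p ∣ W w → p ≤ T) ∧
      a 0 * W 0 + a 1 * W 1 = a 2 * W 2 ∧ ((Nat.gcd (W 0) (W 1) : ℕ) : ℝ) ≤
        G * ((∏ q ∈ (Nat.gcd (W 0) (W 1)).primeFactors, q : ℕ) : ℝ)}.Finite := by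
  classical
  obtain ⟨C, κ, hcong⟩ := congruent' (Fin 3 ⊕ Fin (T + 1))
  obtain ⟨δ', hδ', t₀, hlarge⟩ := no_large C κ T (δ := 1) one_pos
  -- a large number `t`
  have h1 : ∀ᶠ t : ℕ in atTop, (T : ℝ) ≤ (t : ℝ) ^ δ' :=
    ((tendsto_rpow_atTop hδ').comp (tendsto_natCast_atTop_atTop (R := ℝ))).eventually_ge_atTop _
  have h2 : ∀ᶠ t : ℕ in atTop, G ≤ (t : ℝ) :=
    (tendsto_natCast_atTop_atTop (R := ℝ)).eventually_ge_atTop _
  obtain ⟨t, ht⟩ := ((h1.and h2).and ((eventually_ge_atTop t₀).and
    ((eventually_ge_atTop (a 0 + a 1 + a 2)).and (eventually_ge_atTop T)))).exists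
  obtain ⟨⟨ht1, ht2⟩, ht3, ht4, ht5⟩ := ht
  obtain ⟨L, hL⟩ : ∃ L, L = Nat.log 2 t := ⟨_, rfl⟩
  have htL : t < 2 ^ (L + 1) := by rw [hL]; exact Nat.lt_pow_succ_log_self (by norm_num) t
  refine (Set.finite_Icc (0 : Fin 3 → ℕ) (fun _ => (T + 1) ^ (t * (T + 1)))).subset ?_
  rintro W ⟨hW, heq, hgcd⟩
  refine ⟨fun w => Nat.zero_le _, ?_⟩
  -- the largest exponent
  obtain ⟨m, -, hm⟩ := Finset.exists_max_image (Finset.univ : Finset (Fin 3 × Fin (T + 1)))
    (fun x => (W x.1).factorization x.2) ⟨(0, 0), Finset.mem_univ _⟩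
  obtain ⟨N, hN⟩ : ∃ N, N = (W m.1).factorization m.2 := ⟨_, rfl⟩
  have hNmax : ∀ w (i : Fin (T + 1)), (W w).factorization i ≤ N := fun w i => by
    rw [hN]
    exact hm (w, i) (Finset.mem_univ _)
  have hNt : N ≤ t := by
    by_contra hcon
    push Not at hcon
    have hp : ((m.2 : Fin (T + 1)) : ℕ).Prime := by
      by_contra hnp
      rw [Nat.factorization_eq_zero_of_not_prime _ hnp] at hN
      omega
    obtain ⟨p, hpe⟩ : ∃ p, p = ((m.2 : Fin (T + 1)) : ℕ) := ⟨_, rfl⟩
    rw [← hpe] at hp hN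
    have hpT : p ≤ T := by rw [hpe]; exact Nat.lt_succ_iff.mp m.2.2
    have hpN : p ^ N ∣ W m.1 := by
      rw [hN]
      exact Nat.ordProj_dvd _ _
    obtain ⟨S, hS⟩ : ∃ S, S = T + (T + 1) * (Nat.log 2 t + 1) + Nat.log 2 N + 1 := ⟨_, rfl⟩
    have hSL1 : L + 1 ≤ S := by
      have : L + 1 ≤ (T + 1) * (L + 1) := Nat.le_mul_of_pos_left _ (by omega)
      rw [hS, ← hL]
      omega
    have h2S : ∀ x, x ≤ 2 ^ (L + 1) → x ≤ 2 ^ S := fun x hx =>
      hx.trans (Nat.pow_le_pow_right (by norm_num) hSL1)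
    have hNS : N ≤ 2 ^ S := by
      have h1 : N < 2 ^ (Nat.log 2 N + 1) := Nat.lt_pow_succ_log_self (by norm_num) N
      exact h1.le.trans (Nat.pow_le_pow_right (by norm_num) (by rw [hS]; omega))
    have haL : ∀ w, a w < 2 ^ (L + 1) := by
      intro w
      have : a w ≤ a 0 + a 1 + a 2 := by fin_cases w <;> simp <;> omega
      omega
    have hbound := exponent_bound (τ := Fin 3 ⊕ Fin (T + 1)) hcong hp (S := S)
      (by rw [hS]; omega) (by rw [hS]; omega)
      (Q := Sum.elim a fun i => if (i : ℕ) = 0 then 1 else (i : ℕ))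
      (by
        rintro (w | i)
        · exact ha w
        · simp only [Sum.elim_inr]
          split_ifs <;> omega)
      (by
        rintro (w | i)
        · exact h2S _ (haL w).le
        · simp only [Sum.elim_inr]
          have hi := i.2
          split_ifs
          · exact Nat.one_le_two_pow
          · exact h2S _ (by omega))
      (c := fun u => Sum.elim (fun w => if w = u then 1 else 0) (fun i => (W u).factorization i))
      (by
        rintro u (w | i)
        · simp only [Sum.elim_inl]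
          split_ifs
          · exact Nat.one_le_two_pow
          · exact Nat.zero_le _
        · simp only [Sum.elim_inr]
          exact (hNmax u i).trans hNS)
      (a := a) (W := W) ha haL (fun w => (hW w).1)
      (by
        intro u
        rw [Fintype.prod_sum_type]
        simp only [Sum.elim_inl, Sum.elim_inr]
        rw [← smooth_eq (hW u).1 (hW u).2]
        congr 1
        rw [Finset.prod_eq_single u]
        · rw [if_pos rfl, pow_one]
        · intro w _ hw
          rw [if_neg hw, pow_zero]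
        · intro h0
          exact absurd (Finset.mem_univ _) h0)
      heq (G := G) (by
        have : (t : ℝ) < 2 ^ (L + 1) := by exact_mod_cast htL
        linarith) hgcd hpN
    have hl := hlarge t ht3 T N ht1 (by rw [Real.rpow_one]; exact_mod_cast hcon)
    rw [← hS, ← hL] at hl
    omega
  intro w
  rw [smooth_eq (hW w).1 (hW w).2]
  calc ∏ i : Fin (T + 1), (if (i : ℕ) = 0 then 1 else (i : ℕ)) ^ (W w).factorization i
      ≤ ∏ _i : Fin (T + 1), (T + 1) ^ t := by
        apply Finset.prod_le_prod' 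
        intro i _
        have h3 : (if (i : ℕ) = 0 then 1 else (i : ℕ)) ≤ T + 1 := by
          have := i.2
          split_ifs <;> omega
        exact (Nat.pow_le_pow_left h3 _).trans
          (Nat.pow_le_pow_right (by omega) ((hNmax w i).trans hNt))
    _ = (T + 1) ^ (t * (T + 1)) := by simp [pow_mul]

end Pool.Agent.Q103.SP
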